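import Mathlib
import Pool.Agent.H49TW.Sums

/-! Cubic twists with three-torsion: the representations with a large constant term. -/

set_option autoImplicit false

namespace Pool.Agent.H49CT

open Finset

theorem sep_card {α : Type} (S : Finset α) (f : α → ℝ) (δ ℓ : ℝ) (hδ : 0 < δ) (hℓ : 0 ≤ ℓ)
    (hsep : ∀ a ∈ S, ∀ b ∈ S, a ≠ b → δ ≤ |f a - f b|) (hr : ∀ a ∈ S, ∀ b ∈ S, f a - f b ≤ ℓ) :
    (S.card : ℝ) ≤ 1 + ℓ / δ := by
  classical
  rcases S.eq_empty_or_nonempty with rfl | hS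
  · simp only [card_empty, Nat.cast_zero]
    positivity
  obtain ⟨a₀, ha₀, hmin⟩ := S.exists_min_image f hS
  have h1 : S.card ≤ (range (⌊ℓ / δ⌋₊ + 1)).card := by
    refine card_le_card_of_injOn (fun a => ⌊(f a - f a₀) / δ⌋₊) ?_ ?_
    · intro a ha
      rw [coe_range, Set.mem_Iio, Nat.lt_add_one_iff]
      exact Nat.floor_le_floor (div_le_div_of_nonneg_right (hr a ha a₀ ha₀) hδ.le)
    · intro a ha b hb hab
      by_contra hne
      have h2 := hsep a ha b hb hne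
      have e1 : 0 ≤ (f a - f a₀) / δ := div_nonneg (by linarith [hmin a ha]) hδ.le
      have e2 : 0 ≤ (f b - f a₀) / δ := div_nonneg (by linarith [hmin b hb]) hδ.le
      have e3 : |(f a - f a₀) / δ - (f b - f a₀) / δ| < 1 := by
        have e4 : ⌊(f a - f a₀) / δ⌋ = ⌊(f b - f a₀) / δ⌋ := by
          rw [← Int.natCast_floor_eq_floor e1, ← Int.natCast_floor_eq_floor e2]
          exact congrArg _ hab
        exact Int.abs_sub_lt_one_of_floor_eq_floor e4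
      rw [← sub_div, abs_div, abs_of_pos hδ, div_lt_one hδ] at e3
      have e5 : f a - f a₀ - (f b - f a₀) = f a - f b := by ring
      rw [e5] at e3
      linarith
  rw [card_range] at h1
  have h2 : (S.card : ℝ) ≤ ((⌊ℓ / δ⌋₊ + 1 : ℕ) : ℝ) := by exact_mod_cast h1
  have h3 : (⌊ℓ / δ⌋₊ : ℝ) ≤ ℓ / δ := Nat.floor_le (by positivity)
  push_cast at h2
  linarith

/-- coprime pairs in a dyadic range with `s v³ - r u³` in `(0, Z]` -/
theorem card_pairs (r s k : ℕ) (Z X₁ : ℝ) (hr : 0 < r) (hs : 0 < s) (hZ : 0 ≤ Z) (hX : 0 < X₁)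
    (S : Finset (ℕ × ℕ)) (hS : ∀ w ∈ S, Nat.Coprime w.1 w.2 ∧ 2 ^ k ≤ w.1 ∧ w.1 < 2 ^ (k + 1) ∧
      (r : ℝ) * w.1 ^ 3 < s * w.2 ^ 3 ∧ (s : ℝ) * w.2 ^ 3 - r * w.1 ^ 3 ≤ Z ∧
      X₁ ≤ (r : ℝ) * s * w.1 * w.2) : (S.card : ℝ) ≤ 1 + 3 * Z / √X₁ := by
  obtain ⟨U, hU⟩ : ∃ U : ℝ, U = 2 ^ k := ⟨_, rfl⟩
  have hU0 : 0 < U := by rw [hU]; positivity
  have hr0 : (0 : ℝ) < r := by exact_mod_cast hr
  have hs0 : (0 : ℝ) < s := by exact_mod_cast hs
  have hX0 : 0 < √X₁ := Real.sqrt_pos.2 hX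
  have hu : ∀ w ∈ S, U ≤ (w.1 : ℝ) ∧ (w.1 : ℝ) ≤ 2 * U := by
    intro w hw
    obtain ⟨-, h1, h2, -⟩ := hS w hw
    have h3 : ((2 ^ k : ℕ) : ℝ) ≤ w.1 := by exact_mod_cast h1
    have h4 : (w.1 : ℝ) ≤ ((2 ^ (k + 1) : ℕ) : ℝ) := by exact_mod_cast h2.le
    push_cast at h3 h4
    rw [hU]
    refine ⟨h3, ?_⟩
    rw [pow_succ] at h4
    linarith
  have h1 := sep_card S (fun w => (w.2 : ℝ) / w.1) (1 / (4 * U ^ 2)) (2 * Z / (3 * √X₁ * U ^ 2))
    (by positivity) (by positivity) ?_ ?_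
  · refine h1.trans ?_
    have h2 : 2 * Z / (3 * √X₁ * U ^ 2) / (1 / (4 * U ^ 2)) = 8 / 3 * (Z / √X₁) := by
      field_simp
      ring
    rw [h2, mul_div_assoc]
    have h3 : 0 ≤ Z / √X₁ := by positivity
    linarith
  · -- separation
    intro w hw w' hw' hne
    obtain ⟨hc, -⟩ := hS w hw
    obtain ⟨hc', -⟩ := hS w' hw'
    have hu1 := hu w hw
    have hu2 := hu w' hw'
    have hp1 : (0 : ℝ) < w.1 := by linarith
    have hp2 : (0 : ℝ) < w'.1 := by linarith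
    have h2 : (w.2 : ℝ) / w.1 - w'.2 / w'.1 = (w.2 * w'.1 - w.1 * w'.2) / (w.1 * w'.1) :=
      div_sub_div _ _ hp1.ne' hp2.ne'
    rw [h2, abs_div, abs_of_pos (by positivity : (0 : ℝ) < w.1 * w'.1)]
    have h3 : (1 : ℝ) ≤ |(w.2 : ℝ) * w'.1 - w.1 * w'.2| := by
      have h4 : (w.2 : ℤ) * w'.1 - w.1 * w'.2 ≠ 0 := by
        intro h5
        have h6 : w.2 * w'.1 = w.1 * w'.2 := by
          have : (w.2 : ℤ) * w'.1 = w.1 * w'.2 := by linarith
          exact_mod_cast this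
        apply hne
        have h7 : w.1 ∣ w'.1 := hc.dvd_of_dvd_mul_left ⟨w'.2, h6⟩
        have h8 : w'.1 ∣ w.1 := by
          refine hc'.dvd_of_dvd_mul_left ⟨w.2, ?_⟩
          rw [Nat.mul_comm w'.2, ← h6, Nat.mul_comm]
        have h9 : w.1 = w'.1 := Nat.dvd_antisymm h7 h8
        have hw0 : 0 < w'.1 := by exact_mod_cast hp2
        rw [h9, Nat.mul_comm] at h6
        exact Prod.ext h9 (Nat.eq_of_mul_eq_mul_left hw0 h6)
      have h5 := Int.one_le_abs h4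
      have h6 : (1 : ℝ) ≤ ((|(w.2 : ℤ) * w'.1 - w.1 * w'.2| : ℤ) : ℝ) := by exact_mod_cast h5
      push_cast at h6
      exact h6
    apply div_le_div₀ (by linarith) h3 (by positivity)
    nlinarith
  · -- range
    intro w' hw' w hw
    obtain ⟨-, -, -, hlt', hZ', -⟩ := hS w' hw'
    obtain ⟨-, -, -, hlt, -, hX1⟩ := hS w hw
    have hu1 := hu w hw
    have hu2 := hu w' hw'
    have hp1 : (0 : ℝ) < w.1 := by linarith
    have hp2 : (0 : ℝ) < w'.1 := by linarith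
    obtain ⟨t, ht⟩ : ∃ t : ℝ, t = (w.2 : ℝ) / w.1 := ⟨_, rfl⟩
    obtain ⟨t', ht'⟩ : ∃ t' : ℝ, t' = (w'.2 : ℝ) / w'.1 := ⟨_, rfl⟩
    have hv1 : (w.2 : ℝ) = t * w.1 := by rw [ht]; field_simp
    have hv2 : (w'.2 : ℝ) = t' * w'.1 := by rw [ht']; field_simp
    rw [← ht, ← ht']
    rcases le_total t' t with hle | hle
    · have : 0 ≤ 2 * Z / (3 * √X₁ * U ^ 2) := by positivity
      linarith
    have ht0 : 0 ≤ t := by rw [ht]; positivity
    have ht0' : 0 ≤ t' := ht0.trans hle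
    -- t ^ 3 > r / s, t' ^ 3 ≤ r / s + Z / (s U ^ 3)
    have e1 : (r : ℝ) < s * t ^ 3 := by
      rw [hv1] at hlt
      have : (r : ℝ) * w.1 ^ 3 < (s * t ^ 3) * w.1 ^ 3 := by
        calc (r : ℝ) * w.1 ^ 3 < s * (t * w.1) ^ 3 := hlt
          _ = (s * t ^ 3) * w.1 ^ 3 := by ring
      exact lt_of_mul_lt_mul_right this (by positivity)
    have e2 : (s * t' ^ 3 - r) * U ^ 3 ≤ Z := by
      have h5 : (s * t' ^ 3 - r) * (w'.1 : ℝ) ^ 3 ≤ Z := by
        rw [hv2] at hZ'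
        calc (s * t' ^ 3 - r) * (w'.1 : ℝ) ^ 3 = s * (t' * w'.1) ^ 3 - r * w'.1 ^ 3 := by ring
          _ ≤ Z := hZ'
      rcases le_total 0 (s * t' ^ 3 - r) with h6 | h6
      · refine le_trans ?_ h5
        exact mul_le_mul_of_nonneg_left (pow_le_pow_left₀ hU0.le hu2.1 3) h6
      · exact (mul_nonpos_of_nonpos_of_nonneg h6 (by positivity)).trans hZ
    have e3 : 3 * t ^ 2 * (t' - t) ≤ t' ^ 3 - t ^ 3 := by
      have : t' ^ 3 - t ^ 3 - 3 * t ^ 2 * (t' - t) = (t' - t) ^ 2 * (t' + 2 * t) := by ring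
      have h6 : 0 ≤ (t' - t) ^ 2 * (t' + 2 * t) := by positivity
      linarith
    have e4 : s * (3 * t ^ 2 * (t' - t)) * U ^ 3 ≤ Z := by
      refine le_trans ?_ e2
      refine mul_le_mul_of_nonneg_right ?_ (by positivity)
      have := mul_le_mul_of_nonneg_left e3 hs0.le
      linarith
    -- s t² (2 U) ≥ √X₁
    have e5 : √X₁ ≤ s * t ^ 2 * (2 * U) := by
      apply Real.sqrt_le_iff.2
      refine ⟨by positivity, hX1.trans ?_⟩
      rw [hv1]
      have e6 : (r : ℝ) * s * w.1 * (t * w.1) = r * (s * t * w.1 ^ 2) := by ring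
      rw [e6]
      calc (r : ℝ) * (s * t * w.1 ^ 2) ≤ (s * t ^ 3) * (s * t * w.1 ^ 2) :=
            mul_le_mul_of_nonneg_right e1.le (by positivity)
        _ ≤ (s * t ^ 3) * (s * t * (2 * U) ^ 2) := by
            have := hu1.2
            gcongr
        _ = (s * t ^ 2 * (2 * U)) ^ 2 := by ring
    rw [le_div_iff₀ (by positivity)]
    calc (t' - t) * (3 * √X₁ * U ^ 2) ≤ (t' - t) * (3 * (s * t ^ 2 * (2 * U)) * U ^ 2) := by
          have : 0 ≤ t' - t := by linarith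
          gcongr
      _ = 2 * (s * (3 * t ^ 2 * (t' - t)) * U ^ 3) := by ring
      _ ≤ 2 * Z := by linarith

/-- a representation -/
structure Rep (X₁ : ℝ) (B e r s u v : ℕ) : Prop where
  hr : 0 < r
  hs : 0 < s
  hu : 0 < u
  hv : 0 < v
  cop : Nat.Coprime u v
  lt : r * u ^ 3 < s * v ^ 3
  he : e = r * s * (s * v ^ 3 - r * u ^ 3)
  hX : X₁ ≤ (r : ℝ) * s * u * v
  huB : u ≤ B
  hvB : v ≤ B

open Classical in
/-- the numbers with a representation with a large constant term -/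
theorem card_Ea (X₁ : ℝ) (B M Y : ℕ) (hX : 0 < X₁) (hY : 1 ≤ Y) :
    ((((Icc 1 M).filter fun e => ∃ r s u v : ℕ, Rep X₁ B e r s u v ∧ r * s ≤ Y).card : ℕ) : ℝ) ≤
      ((Nat.log 2 B + 1 : ℕ) : ℝ) * (Y * (1 + Real.log Y) +
        3 * M / √X₁ * (1 + Real.log Y) ^ 2) := by
  have hX0 : 0 < √X₁ := Real.sqrt_pos.2 hX
  set F : ℕ → ℕ → ℕ → Finset ℕ := fun k r s =>
    (Icc 1 M).filter fun e => ∃ u v : ℕ, Rep X₁ B e r s u v ∧ 2 ^ k ≤ u ∧ u < 2 ^ (k + 1) with hF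
  -- the bound of one set
  have hone : ∀ k r s : ℕ, 0 < r → 0 < s →
      ((F k r s).card : ℝ) ≤ 1 + 3 * M / √X₁ * (1 / ((r : ℝ) * s)) := by
    intro k r s hr hs
    have hr0 : (0 : ℝ) < r := by exact_mod_cast hr
    have hs0 : (0 : ℝ) < s := by exact_mod_cast hs
    have hex : ∀ e ∈ F k r s, ∃ w : ℕ × ℕ, Rep X₁ B e r s w.1 w.2 ∧ 2 ^ k ≤ w.1 ∧
        w.1 < 2 ^ (k + 1) := by
      intro e he
      rw [hF, mem_filter] at he
      obtain ⟨-, u, v, h1, h2, h3⟩ := he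
      exact ⟨(u, v), h1, h2, h3⟩
    choose! w hw using hex
    have h1 := card_pairs r s k (M / (r * s)) X₁ hr hs (by positivity) hX ((F k r s).image w) (by
      intro x hx
      obtain ⟨e, he, rfl⟩ := mem_image.1 hx
      obtain ⟨h1, h2, h3⟩ := hw e he
      have he' := he
      rw [hF, mem_filter, mem_Icc] at he'
      have e1 : (r : ℝ) * (w e).1 ^ 3 < s * (w e).2 ^ 3 := by exact_mod_cast h1.lt
      refine ⟨h1.cop, h2, h3, e1, ?_, h1.hX⟩
      rw [le_div_iff₀ (by positivity)]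
      have e2 : ((e : ℕ) : ℝ) = r * s * (s * (w e).2 ^ 3 - r * (w e).1 ^ 3) := by
        have e3 := h1.he
        have e4 : ((s * (w e).2 ^ 3 - r * (w e).1 ^ 3 : ℕ) : ℝ) =
            s * (w e).2 ^ 3 - r * (w e).1 ^ 3 := by
          rw [Nat.cast_sub h1.lt.le]
          push_cast
          ring
        rw [← e4]
        exact_mod_cast e3
      have e5 : ((e : ℕ) : ℝ) ≤ M := by exact_mod_cast he'.1.2
      linarith)
    have h2 : ((F k r s).image w).card = (F k r s).card := by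
      apply card_image_of_injOn
      intro e he e' he' h
      have h3 := (hw e he).1.he
      have h4 := (hw e' he').1.he
      have h : w e = w e' := h
      rw [h] at h3
      exact h3.trans h4.symm
    rw [h2] at h1
    refine h1.trans (le_of_eq ?_)
    field_simp
  -- the cover
  have hcov : ((Icc 1 M).filter fun e => ∃ r s u v : ℕ, Rep X₁ B e r s u v ∧ r * s ≤ Y) ⊆
      (range (Nat.log 2 B + 1)).biUnion fun k => (Icc 1 Y).biUnion fun r =>
        (Icc 1 (Y / r)).biUnion fun s => F k r s := by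
    intro e he
    rw [mem_filter] at he
    obtain ⟨heM, r, s, u, v, h, hrs⟩ := he
    rw [mem_biUnion]
    refine ⟨Nat.log 2 u, ?_, ?_⟩
    · rw [mem_range, Nat.lt_add_one_iff]
      exact Nat.log_mono_right h.huB
    rw [mem_biUnion]
    refine ⟨r, ?_, ?_⟩
    · rw [mem_Icc]
      refine ⟨h.hr, le_trans ?_ hrs⟩
      exact Nat.le_mul_of_pos_right r h.hs
    rw [mem_biUnion]
    refine ⟨s, ?_, ?_⟩
    · rw [mem_Icc]
      refine ⟨h.hs, ?_⟩
      rw [Nat.le_div_iff_mul_le h.hr, Nat.mul_comm]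
      exact hrs
    · rw [hF, mem_filter]
      exact ⟨heM, u, v, h, Nat.pow_log_le_self 2 h.hu.ne', Nat.lt_pow_succ_log_self (by norm_num) u⟩
  have hc1 : ((((Icc 1 M).filter fun e => ∃ r s u v : ℕ, Rep X₁ B e r s u v ∧ r * s ≤ Y).card : ℕ) : ℝ)
      ≤ ∑ _k ∈ range (Nat.log 2 B + 1), ∑ r ∈ Icc 1 Y, ∑ s ∈ Icc 1 (Y / r),
        (1 + 3 * M / √X₁ * (1 / ((r : ℝ) * s))) := by
    have h1 := (card_le_card hcov).trans card_biUnion_le
    have h2 : ((((Icc 1 M).filter fun e => ∃ r s u v : ℕ, Rep X₁ B e r s u v ∧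
        r * s ≤ Y).card : ℕ) : ℝ) ≤ ∑ k ∈ range (Nat.log 2 B + 1),
        (((Icc 1 Y).biUnion fun r => (Icc 1 (Y / r)).biUnion fun s => F k r s).card : ℝ) := by
      exact_mod_cast h1
    refine h2.trans (sum_le_sum fun k _ => ?_)
    have h3 : (((Icc 1 Y).biUnion fun r => (Icc 1 (Y / r)).biUnion fun s => F k r s).card : ℝ) ≤
        ∑ r ∈ Icc 1 Y, (((Icc 1 (Y / r)).biUnion fun s => F k r s).card : ℝ) := by
      exact_mod_cast card_biUnion_le
    refine h3.trans (sum_le_sum fun r hr => ?_)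
    have h4 : (((Icc 1 (Y / r)).biUnion fun s => F k r s).card : ℝ) ≤
        ∑ s ∈ Icc 1 (Y / r), ((F k r s).card : ℝ) := by
      exact_mod_cast card_biUnion_le
    refine h4.trans (sum_le_sum fun s hs => ?_)
    exact hone k r s (mem_Icc.1 hr).1 (mem_Icc.1 hs).1
  refine hc1.trans ?_
  rw [sum_const, card_range, nsmul_eq_mul]
  refine mul_le_mul_of_nonneg_left ?_ (Nat.cast_nonneg _)
  have hlY : 0 ≤ Real.log Y := Real.log_natCast_nonneg Y
  have hinner : ∀ r ∈ Icc 1 Y, ∑ s ∈ Icc 1 (Y / r), (1 + 3 * M / √X₁ * (1 / ((r : ℝ) * s))) ≤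
      Y * (1 / (r : ℝ)) + 3 * M / √X₁ * (1 + Real.log Y) * (1 / (r : ℝ)) := by
    intro r hr
    have hr1 := (mem_Icc.1 hr).1
    have hr0 : (0 : ℝ) < r := by exact_mod_cast hr1
    rw [sum_add_distrib, sum_const, Nat.card_Icc, nsmul_eq_mul, mul_one, add_tsub_cancel_right,
      ← mul_sum]
    apply add_le_add
    · rw [mul_one_div]
      exact Nat.cast_div_le
    · have h1 : ∑ s ∈ Icc 1 (Y / r), (1 / ((r : ℝ) * s)) = 1 / (r : ℝ) *
          ∑ s ∈ Icc 1 (Y / r), (1 / (s : ℝ)) := by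
        rw [mul_sum]
        refine sum_congr rfl fun s _ => ?_
        rw [one_div_mul_one_div]
      have h2 : ∑ s ∈ Icc 1 (Y / r), (1 / (s : ℝ)) ≤ 1 + Real.log Y := by
        refine le_trans (sum_le_sum_of_subset_of_nonneg (t := Icc 1 Y) ?_ ?_)
          (Pool.Agent.H49TW.harm Y)
        · exact Icc_subset_Icc le_rfl (Nat.div_le_self Y r)
        · intros; positivity
      rw [h1]
      calc 3 * M / √X₁ * (1 / (r : ℝ) * ∑ s ∈ Icc 1 (Y / r), (1 / (s : ℝ)))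
          ≤ 3 * M / √X₁ * (1 / (r : ℝ) * (1 + Real.log Y)) := by gcongr
        _ = 3 * M / √X₁ * (1 + Real.log Y) * (1 / (r : ℝ)) := by ring
  refine (sum_le_sum hinner).trans ?_
  rw [sum_add_distrib, ← mul_sum, ← mul_sum]
  have h1 := Pool.Agent.H49TW.harm Y
  apply add_le_add
  · gcongr
  · calc 3 * M / √X₁ * (1 + Real.log Y) * ∑ r ∈ Icc 1 Y, (1 / (r : ℝ))
        ≤ 3 * M / √X₁ * (1 + Real.log Y) * (1 + Real.log Y) := by gcongr
      _ = 3 * M / √X₁ * (1 + Real.log Y) ^ 2 := by ring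

end Pool.Agent.H49CT
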