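import Pool.Agent.H49CT.Fib
import Pool.Agent.W803.HZ.DET
import Pool.Agent.W19.HZ.DPB
import Pool.Agent.W12.HZ.C2R
import Pool.Agent.W164.HZ.PAR
import Pool.Agent.W563.HZ.REL
import Pool.Agent.W61.HZ.PAD
import Pool.Agent.W499.HZ.PRM
import Pool.Agent.W351.HZ.PPR
import Pool.Agent.W60.HZ.INA

/-! Cubic twists with three-torsion: the values of the large parameter, all ranges. -/

set_option autoImplicit false

namespace Pool.Agent.H49CT

open Pool.Agent.W223.HZ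

theorem fib1 : ∃ S₀ : ℝ, 1 ≤ S₀ ∧
    ∀ (T Q V t : ℝ) (a n : ℤ) (𝒟 : Finset ℤ), 1 ≤ a →
    n ≠ 0 → (n : ℝ) ^ 2 ≤ T → S₀ ≤ T → T ^ ((1 : ℝ) / 2) ≤ V → V ^ 3 * |(n : ℝ)| = T * Q ^ 3 →
    1 ≤ Q → 0 < t → t ^ 6 * a = T → Real.log V ≤ T ^ ((1 : ℝ) / 2500) →
    (∀ d ∈ 𝒟, ∃ p q : ℤ, Pt T Q a n d p q) →
    (𝒟.card : ℝ) ≤ T ^ (1 - (1 : ℝ) / 22 + 1 / 300) :=
  fib0 Pool.Agent.W12.HZ.C2R.t (Pool.Agent.W19.HZ.t Pool.Agent.W803.HZ.DET.t)
    Pool.Agent.W164.HZ.t Pool.Agent.W563.HZ.REL.t Pool.Agent.W61.HZ.t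
    (Pool.Agent.W351.HZ.t Pool.Agent.W499.HZ.PRM.t) Pool.Agent.W60.HZ.t

/-- large `q` -/
theorem fib : ∃ S₀ : ℝ, 1 ≤ S₀ ∧
    ∀ (T Q : ℝ) (a n : ℤ) (𝒟 : Finset ℤ), 1 ≤ a →
    n ≠ 0 → (n : ℝ) ^ 2 ≤ T ^ ((1 : ℝ) / 5) → S₀ ≤ T → T ^ ((1 : ℝ) / 5) ≤ Q →
    Real.log Q ≤ 1 / 2 * T ^ ((1 : ℝ) / 2500) →
    (∀ d ∈ 𝒟, ∃ p q : ℤ, Pt T Q a n d p q) →
    (𝒟.card : ℝ) ≤ T ^ (1 - (1 : ℝ) / 22 + 1 / 300) := by
  obtain ⟨S₁, hS₁, h⟩ := fib1
  -- (log T) / 3 ≤ T ^ (1 / 2500) / 2 for large T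
  have hev : ∀ᶠ T : ℝ in Filter.atTop, Real.log T ≤ T ^ ((1 : ℝ) / 2500) := by
    have := (isLittleO_log_rpow_atTop (by norm_num : (0 : ℝ) < 1 / 2500)).bound one_pos
    filter_upwards [this, Filter.eventually_ge_atTop 1] with T hT hT1
    rw [one_mul, Real.norm_eq_abs, Real.norm_eq_abs, abs_of_nonneg (Real.log_nonneg hT1),
      abs_of_nonneg (Real.rpow_nonneg (by linarith) _)] at hT
    exact hT
  obtain ⟨S₂, hS₂⟩ := Filter.eventually_atTop.1 hev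
  refine ⟨max (max S₁ S₂) 1, le_max_right _ _, ?_⟩
  intro T Q a n 𝒟 ha hn hnT hS hQ hlog hex
  have h1 : S₁ ≤ T := le_trans (le_trans (le_max_left _ _) (le_max_left _ _)) hS
  have h2 : S₂ ≤ T := le_trans (le_trans (le_max_right _ _) (le_max_left _ _)) hS
  have hT1 : 1 ≤ T := le_trans (le_max_right _ _) hS
  have hT0 : 0 < T := by linarith
  have hlT := hS₂ T h2
  have hn1 : 1 ≤ |(n : ℝ)| := by exact_mod_cast Int.one_le_abs hn
  have hn0 : 0 < |(n : ℝ)| := by linarith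
  obtain ⟨z, hz⟩ : ∃ z : ℝ, z = T ^ ((1 : ℝ) / 5) := ⟨_, rfl⟩
  have hz5 : z ^ 5 = T := by
    rw [hz, ← Real.rpow_natCast, ← Real.rpow_mul hT0.le]
    norm_num
  have hz1 : 1 ≤ z := by rw [hz]; exact Real.one_le_rpow hT1 (by norm_num)
  rw [← hz] at hnT hQ
  have hQ1 : 1 ≤ Q := hz1.trans hQ
  have hQ0 : 0 < Q := by linarith
  have hnT' : (n : ℝ) ^ 2 ≤ T := by
    refine hnT.trans ?_
    rw [← hz5]
    exact le_self_pow₀ hz1 (by norm_num)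
  obtain ⟨V, hV⟩ : ∃ V : ℝ, V = (T * Q ^ 3 / |(n : ℝ)|) ^ ((1 : ℝ) / 3) := ⟨_, rfl⟩
  have hV0 : 0 < V := by rw [hV]; positivity
  have hV3 : V ^ 3 * |(n : ℝ)| = T * Q ^ 3 := by
    have : V ^ 3 = T * Q ^ 3 / |(n : ℝ)| := by
      rw [hV, ← Real.rpow_natCast, ← Real.rpow_mul (by positivity)]
      norm_num
    rw [this]
    field_simp
  obtain ⟨t, ht⟩ : ∃ t : ℝ, t = (T / a) ^ ((1 : ℝ) / 6) := ⟨_, rfl⟩
  have ha0 : (0 : ℝ) < a := by exact_mod_cast (by omega : (0 : ℤ) < a)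
  have ht0 : 0 < t := by rw [ht]; positivity
  have ht6 : t ^ 6 * a = T := by
    have : t ^ 6 = T / a := by
      rw [ht, ← Real.rpow_natCast, ← Real.rpow_mul (by positivity)]
      norm_num
    rw [this]
    field_simp
  refine h T Q V t a n 𝒟 ha hn hnT' h1 ?_ hV3 hQ1 ht0 ht6 ?_ hex
  · -- V ≥ √T
    rw [← Real.sqrt_eq_rpow]
    apply Real.sqrt_le_iff.2
    refine ⟨hV0.le, ?_⟩
    have e1 : V ^ 6 * (n : ℝ) ^ 2 = T ^ 2 * Q ^ 6 := by
      have := congrArg (fun x => x ^ 2) hV3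
      simp only [mul_pow, sq_abs] at this
      linear_combination this
    have e2 : T ^ 3 ≤ V ^ 6 := by
      have e3 : T ^ 3 * z ≤ V ^ 6 * z := by
        calc T ^ 3 * z = T ^ 2 * (z ^ 5 * z) := by rw [hz5]; ring
          _ = T ^ 2 * z ^ 6 := by ring
          _ ≤ T ^ 2 * Q ^ 6 := by
              have := pow_le_pow_left₀ (by linarith) hQ 6
              exact mul_le_mul_of_nonneg_left this (by positivity)
          _ = V ^ 6 * (n : ℝ) ^ 2 := e1.symm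
          _ ≤ V ^ 6 * z := mul_le_mul_of_nonneg_left hnT (by positivity)
      exact le_of_mul_le_mul_right e3 (by linarith)
    by_contra hc
    push Not at hc
    have e4 : (V ^ 2) ^ 3 < T ^ 3 := pow_lt_pow_left₀ hc (by positivity) (by norm_num)
    rw [← pow_mul] at e4
    norm_num at e4
    linarith
  · have e1 : V ^ 3 ≤ T * Q ^ 3 := by
      rw [← hV3]
      exact le_mul_of_one_le_right (by positivity) hn1
    have e2 := Real.log_le_log (by positivity) e1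
    rw [Real.log_pow, Real.log_mul (by positivity) (by positivity), Real.log_pow] at e2
    push_cast at e2
    have e3 : 0 ≤ T ^ ((1 : ℝ) / 2500) := Real.rpow_nonneg hT0.le _
    linarith

/-- small `q` -/
theorem small (T Q : ℝ) (a n : ℤ) (𝒟 : Finset ℤ) (ha : 1 ≤ a) (hnT : (n : ℝ) ^ 2 ≤ T)
    (hT : 1 ≤ T) (hQ : 1 ≤ Q) (hQ' : Q ≤ T ^ ((1 : ℝ) / 5))
    (hex : ∀ d ∈ 𝒟, ∃ p q : ℤ, Pt T Q a n d p q) :
    (𝒟.card : ℝ) ≤ 6 * T ^ ((11 : ℝ) / 15) := by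
  classical
  have hT0 : 0 < T := by linarith
  have hQ0 : 0 < Q := by linarith
  obtain ⟨w, hw⟩ : ∃ w : ℝ, w = T ^ ((1 : ℝ) / 3) := ⟨_, rfl⟩
  have hw0 : 0 < w := by rw [hw]; positivity
  have hw3 : w ^ 3 = T := by
    rw [hw, ← Real.rpow_natCast, ← Real.rpow_mul hT0.le]
    norm_num
  choose! p q hpq using hex
  set F : Finset (ℤ × ℤ) := (Finset.Icc 1 ⌊3 * w * Q⌋) ×ˢ (Finset.Icc 1 ⌊2 * Q⌋) with hF
  have ha' : (1 : ℝ) ≤ a := by exact_mod_cast ha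
  have h1 : 𝒟.card ≤ F.card := by
    refine Finset.card_le_card_of_injOn (fun d => (p d, q d)) ?_ ?_
    · intro d hd
      have hd' : d ∈ 𝒟 := hd
      have hp := hpq d hd'
      have hq0 : (0 : ℝ) < q d := by linarith [hp.hq1]
      have hq1 : 0 < q d := by exact_mod_cast hq0
      rw [hF, Finset.coe_product, Set.mem_prod, Finset.mem_coe, Finset.mem_coe, Finset.mem_Icc,
        Finset.mem_Icc]
      refine ⟨⟨hp.hp, Int.le_floor.2 ?_⟩, Int.add_one_le_iff.2 hq1, Int.le_floor.2 hp.hq2⟩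
      by_contra hc
      push Not at hc
      have e1 : (3 * w * Q) ^ 3 < (p d : ℝ) ^ 3 := pow_lt_pow_left₀ hc (by positivity) (by norm_num)
      have e2 : (a : ℝ) * (p d : ℝ) ^ 3 + d * (q d : ℝ) ^ 3 = n := by exact_mod_cast hp.heq
      have e3 : (p d : ℝ) ^ 3 ≤ a * (p d : ℝ) ^ 3 := by
        have : (0 : ℝ) < p d := by exact_mod_cast hp.hp
        exact le_mul_of_one_le_left (by positivity) ha'
      have e4 : -(d : ℝ) * (q d : ℝ) ^ 3 ≤ 2 * T * (2 * Q) ^ 3 := by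
        have e5 : (q d : ℝ) ^ 3 ≤ (2 * Q) ^ 3 := pow_le_pow_left₀ hq0.le hp.hq2 3
        exact mul_le_mul hp.hd2 e5 (by positivity) (by positivity)
      have e6 : (n : ℝ) ≤ T * Q ^ 3 := by
        have e7 : |(n : ℝ)| ≤ T := by
          rcases eq_or_ne n 0 with h0 | h0
          · rw [h0]; simp; linarith
          · have hn1 : 1 ≤ |(n : ℝ)| := by exact_mod_cast Int.one_le_abs h0
            have h1 : |(n : ℝ)| * 1 ≤ |(n : ℝ)| * |(n : ℝ)| :=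
              mul_le_mul_of_nonneg_left hn1 (abs_nonneg _)
            have h2 : |(n : ℝ)| * |(n : ℝ)| = (n : ℝ) ^ 2 := by rw [← pow_two, sq_abs]
            linarith
        have e8 : T ≤ T * Q ^ 3 := le_mul_of_one_le_right hT0.le (one_le_pow₀ hQ)
        exact (le_abs_self _).trans (e7.trans e8)
      have e9 : (3 * w * Q) ^ 3 = 27 * (T * Q ^ 3) := by rw [← hw3]; ring
      have e10 : 0 < T * Q ^ 3 := by positivity
      nlinarith
    · intro d hd d' hd' h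
      have hp := hpq d hd
      have hp' := hpq d' hd'
      have e1 : p d = p d' := (Prod.mk.inj h).1
      have e2 : q d = q d' := (Prod.mk.inj h).2
      have e3 := hp.heq
      rw [e1, e2] at e3
      have e4 := hp'.heq
      have hq0 : (0 : ℝ) < q d' := by linarith [hp'.hq1]
      have hq1 : q d' ≠ 0 := by
        have : 0 < q d' := by exact_mod_cast hq0
        omega
      have e5 : (d - d') * q d' ^ 3 = 0 := by linear_combination e3 - e4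
      rcases mul_eq_zero.1 e5 with h6 | h6
      · linarith
      · exact absurd h6 (pow_ne_zero 3 hq1)
  have h2 : (F.card : ℝ) ≤ (3 * w * Q) * (2 * Q) := by
    rw [hF, Finset.card_product, Nat.cast_mul, Int.card_Icc, Int.card_Icc]
    have e1 : ∀ z : ℝ, 0 ≤ z → (((⌊z⌋ + 1 - 1).toNat : ℕ) : ℝ) ≤ z := by
      intro z hz
      rw [add_sub_cancel_right]
      have e2 : ((⌊z⌋.toNat : ℕ) : ℤ) = ⌊z⌋ := Int.toNat_of_nonneg (Int.floor_nonneg.2 hz)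
      have e3 : ((⌊z⌋.toNat : ℕ) : ℝ) = ((⌊z⌋ : ℤ) : ℝ) := by exact_mod_cast e2
      rw [e3]
      exact Int.floor_le z
    exact mul_le_mul (e1 _ (by positivity)) (e1 _ (by positivity)) (Nat.cast_nonneg _)
      (by positivity)
  have h3 : (𝒟.card : ℝ) ≤ F.card := by exact_mod_cast h1
  refine h3.trans (h2.trans ?_)
  have h4 : Q ^ 2 ≤ T ^ ((2 : ℝ) / 5) := by
    have := pow_le_pow_left₀ hQ0.le hQ' 2
    rw [← Real.rpow_natCast (T ^ ((1 : ℝ) / 5)), ← Real.rpow_mul hT0.le] at this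
    norm_num at this ⊢
    exact this
  calc (3 * w * Q) * (2 * Q) = 6 * (w * Q ^ 2) := by ring
    _ ≤ 6 * (w * T ^ ((2 : ℝ) / 5)) := by gcongr
    _ = 6 * T ^ ((11 : ℝ) / 15) := by
        rw [hw, ← Real.rpow_add hT0]
        norm_num

/-- all `q` -/
theorem dset : ∃ S₀ : ℝ, 1 ≤ S₀ ∧
    ∀ (T Q : ℝ) (a n : ℤ) (𝒟 : Finset ℤ), 1 ≤ a →
    n ≠ 0 → (n : ℝ) ^ 2 ≤ T ^ ((1 : ℝ) / 5) → S₀ ≤ T → 1 ≤ Q →
    Real.log Q ≤ 1 / 2 * T ^ ((1 : ℝ) / 2500) →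
    (∀ d ∈ 𝒟, ∃ p q : ℤ, Pt T Q a n d p q) →
    (𝒟.card : ℝ) ≤ 6 * T ^ (1 - (1 : ℝ) / 22 + 1 / 300) := by
  obtain ⟨S₀, hS₀, h⟩ := fib
  refine ⟨S₀, hS₀, ?_⟩
  intro T Q a n 𝒟 ha hn hnT hS hQ hlog hex
  have hT1 : 1 ≤ T := hS₀.trans hS
  have hT0 : 0 < T := by linarith
  rcases le_total (T ^ ((1 : ℝ) / 5)) Q with h1 | h1
  · have h2 := h T Q a n 𝒟 ha hn hnT hS h1 hlog hex
    have h3 : 0 ≤ T ^ (1 - (1 : ℝ) / 22 + 1 / 300) := Real.rpow_nonneg hT0.le _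
    linarith
  · have h2 : (n : ℝ) ^ 2 ≤ T := by
      refine hnT.trans ?_
      calc T ^ ((1 : ℝ) / 5) ≤ T ^ (1 : ℝ) :=
            Real.rpow_le_rpow_of_exponent_le hT1 (by norm_num)
        _ = T := Real.rpow_one T
    refine (small T Q a n 𝒟 ha h2 hT1 hQ h1 hex).trans ?_
    have := Real.rpow_le_rpow_of_exponent_le hT1
      (by norm_num : (11 : ℝ) / 15 ≤ 1 - (1 : ℝ) / 22 + 1 / 300)
    linarith

end Pool.Agent.H49CT
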