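import Pool.Agent.H49CT.CntA
import Pool.Agent.H49CT.Dset

/-! Cubic twists with three-torsion: the representations with a small constant term. -/

set_option autoImplicit false

namespace Pool.Agent.H49CT

open Finset

/-- a representation as a point of the one-parameter family -/
structure Rep2 (B i j n a : ℕ) (σ : ℤ) (e : ℕ) : Prop where
  ha : 0 < a
  hn : 0 < n
  ex : ∃ τ p q : ℕ, e = a * τ * n ∧ 2 ^ i ≤ τ ∧ τ < 2 ^ (i + 1) ∧ 2 ^ j ≤ q ∧ q < 2 ^ (j + 1) ∧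
    q ≤ B ∧ 0 < p ∧ Nat.Coprime p q ∧ (a : ℤ) * p ^ 3 + (-(τ : ℤ)) * q ^ 3 = σ * n

open Classical in
theorem card_F (κ : ℝ) (S₀ : ℝ) (hS₀ : 1 ≤ S₀)
    (hd : ∀ (T Q : ℝ) (a n : ℤ) (𝒟 : Finset ℤ), 1 ≤ a →
      n ≠ 0 → (n : ℝ) ^ 2 ≤ T ^ ((1 : ℝ) / 5) → S₀ ≤ T → 1 ≤ Q →
      Real.log Q ≤ 1 / 2 * T ^ ((1 : ℝ) / 2500) →
      (∀ d ∈ 𝒟, ∃ p q : ℤ, Pt T Q a n d p q) → (𝒟.card : ℝ) ≤ 6 * T ^ κ)
    (B M i j n a : ℕ) (σ : ℤ) (hσ : σ = 1 ∨ σ = -1) (hT : S₀ ≤ (2 : ℝ) ^ i)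
    (hnT : (n : ℝ) ^ 2 ≤ ((2 : ℝ) ^ i) ^ ((1 : ℝ) / 5))
    (hB : Real.log B ≤ 1 / 2 * ((2 : ℝ) ^ i) ^ ((1 : ℝ) / 2500)) :
    ((((Icc 1 M).filter fun e => Rep2 B i j n a σ e).card : ℕ) : ℝ) ≤ 6 * ((2 : ℝ) ^ i) ^ κ := by
  set F := (Icc 1 M).filter fun e => Rep2 B i j n a σ e with hF
  rcases F.eq_empty_or_nonempty with h0 | ⟨e₀, he₀⟩
  · rw [h0]
    simp only [card_empty, Nat.cast_zero]
    positivity
  have h1 : Rep2 B i j n a σ e₀ := (mem_filter.1 he₀).2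
  obtain ⟨τ₀, p₀, q₀, -, -, -, hq₀, -, hq₀B, -⟩ := h1.ex
  have ha := h1.ha
  have hn := h1.hn
  have han : 0 < a * n := Nat.mul_pos ha hn
  have hcard : F.card = (F.image fun e => -(((e / (a * n) : ℕ)) : ℤ)).card := by
    symm
    apply card_image_of_injOn
    intro e he e' he' h
    obtain ⟨τ, -, -, h2, -⟩ := ((mem_filter.1 he).2).ex
    obtain ⟨τ', -, -, h2', -⟩ := ((mem_filter.1 he').2).ex
    have e1 : e / (a * n) = τ := by
      rw [h2, show a * τ * n = a * n * τ by ring]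
      exact Nat.mul_div_cancel_left _ han
    have e2 : e' / (a * n) = τ' := by
      rw [h2', show a * τ' * n = a * n * τ' by ring]
      exact Nat.mul_div_cancel_left _ han
    have h : -(((e / (a * n) : ℕ)) : ℤ) = -(((e' / (a * n) : ℕ)) : ℤ) := h
    rw [e1, e2] at h
    have e3 : τ = τ' := by omega
    rw [h2, h2', e3]
  rw [hcard]
  have hn0 : (n : ℤ) ≠ 0 := by omega
  have hσn : σ * (n : ℤ) ≠ 0 := by
    rcases hσ with h | h <;> rw [h] <;> omega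
  have hσn2 : (((σ * (n : ℤ) : ℤ)) : ℝ) ^ 2 = (n : ℝ) ^ 2 := by
    rcases hσ with h | h <;> rw [h] <;> push_cast <;> ring
  refine hd (2 ^ i) (2 ^ j) a (σ * n) _ (by omega) hσn (by rw [hσn2]; exact hnT) hT
    (one_le_pow₀ (by norm_num)) ?_ ?_
  · refine le_trans (Real.log_le_log (by positivity) ?_) hB
    have : 2 ^ j ≤ B := hq₀.trans hq₀B
    exact_mod_cast this
  · intro d hd'
    obtain ⟨e, he, rfl⟩ := mem_image.1 hd'
    obtain ⟨τ, p, q, h2, h3, h4, h5, h6, -, h8, h9, h10⟩ := ((mem_filter.1 he).2).ex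
    have e1 : e / (a * n) = τ := by
      rw [h2, show a * τ * n = a * n * τ by ring]
      exact Nat.mul_div_cancel_left _ han
    rw [e1]
    have e3 : ((2 ^ i : ℕ) : ℝ) ≤ τ := by exact_mod_cast h3
    have e4 : (τ : ℝ) ≤ ((2 ^ (i + 1) : ℕ) : ℝ) := by exact_mod_cast h4.le
    have e5 : ((2 ^ j : ℕ) : ℝ) ≤ q := by exact_mod_cast h5
    have e6 : (q : ℝ) ≤ ((2 ^ (j + 1) : ℕ) : ℝ) := by exact_mod_cast h6.le
    push_cast [pow_succ] at e3 e4 e5 e6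
    refine ⟨p, q, ?_, ?_, ?_, ?_, by exact_mod_cast h8, Nat.isCoprime_iff_coprime.2 h9, h10⟩
    · push_cast; linarith
    · push_cast; linarith
    · push_cast; linarith
    · push_cast; linarith

open Classical in
/-- the numbers with a representation with a small constant term -/
theorem card_Eb (κ : ℝ) (hκ : κ ≤ 1) (S₀ : ℝ) (hS₀ : 1 ≤ S₀)
    (hd : ∀ (T Q : ℝ) (a n : ℤ) (𝒟 : Finset ℤ), 1 ≤ a →
      n ≠ 0 → (n : ℝ) ^ 2 ≤ T ^ ((1 : ℝ) / 5) → S₀ ≤ T → 1 ≤ Q →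
      Real.log Q ≤ 1 / 2 * T ^ ((1 : ℝ) / 2500) →
      (∀ d ∈ 𝒟, ∃ p q : ℤ, Pt T Q a n d p q) → (𝒟.card : ℝ) ≤ 6 * T ^ κ)
    (X₁ T₀ : ℝ) (B M Y : ℕ) (hM : 1 ≤ M) (hT₀ : S₀ ≤ T₀) (hTY : 4 * T₀ ^ 2 ≤ Y)
    (hY : ((M : ℝ) / Y) ^ 2 ≤ T₀ ^ ((1 : ℝ) / 5))
    (hB : Real.log B ≤ 1 / 2 * T₀ ^ ((1 : ℝ) / 2500)) :
    ((((Icc 1 M).filter fun e => ∃ r s u v : ℕ, Rep X₁ B e r s u v ∧ Y < r * s).card : ℕ) : ℝ) ≤
      ((Nat.log 2 M + 1 : ℕ) : ℝ) * ((Nat.log 2 B + 1 : ℕ) : ℝ) *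
        (12 * M * (1 + Real.log M) * T₀ ^ (κ - 1)) := by
  have hT₀1 : 1 ≤ T₀ := hS₀.trans hT₀
  have hT₀0 : 0 < T₀ := by linarith
  set F : ℕ → ℕ → ℕ → ℕ → ℤ → Finset ℕ := fun i j n a σ =>
    (Icc 1 M).filter fun e => Rep2 B i j n a σ e with hF
  set I : Finset ℕ := (range (Nat.log 2 M + 1)).filter fun i => T₀ ≤ (2 : ℝ) ^ i with hI
  set Nn : Finset ℕ := (Icc 1 M).filter fun n => ((n : ℝ)) ≤ (M : ℝ) / Y with hNn
  have hY0 : (0 : ℝ) < Y := by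
    have : 0 < 4 * T₀ ^ 2 := by positivity
    linarith
  have hcov : ((Icc 1 M).filter fun e => ∃ r s u v : ℕ, Rep X₁ B e r s u v ∧ Y < r * s) ⊆
      I.biUnion fun i => (range (Nat.log 2 B + 1)).biUnion fun j => Nn.biUnion fun n =>
        (Icc 1 (M / (n * 2 ^ i))).biUnion fun a => F i j n a 1 ∪ F i j n a (-1) := by
    intro e he
    rw [mem_filter, mem_Icc] at he
    obtain ⟨⟨he1, heM⟩, r, s, u, v, h, hrs⟩ := he
    obtain ⟨n, hn⟩ : ∃ n, n = s * v ^ 3 - r * u ^ 3 := ⟨_, rfl⟩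
    have hlt := h.lt
    have hn0 : 0 < n := by omega
    have hn2 : s * v ^ 3 = r * u ^ 3 + n := by omega
    have he' : e = r * s * n := by rw [hn]; exact h.he
    have hnY : (n : ℝ) ≤ (M : ℝ) / Y := by
      rw [le_div_iff₀ hY0]
      have e1 : n * Y ≤ M := by
        calc n * Y ≤ n * (r * s) := Nat.mul_le_mul_left _ hrs.le
          _ = e := by rw [he']; ring
          _ ≤ M := heM
      exact_mod_cast e1
    have hnM : n ≤ M := by
      calc n ≤ r * s * n := Nat.le_mul_of_pos_left n (Nat.mul_pos h.hr h.hs)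
        _ ≤ M := by rw [← he']; exact heM
    -- the key step
    have key : ∀ (a τ p q : ℕ) (σ : ℤ), (σ = 1 ∨ σ = -1) → 0 < a → a ≤ τ → e = a * τ * n →
        Y < τ * τ → 0 < p → 0 < q → q ≤ B → Nat.Coprime p q →
        (a : ℤ) * p ^ 3 + (-(τ : ℤ)) * q ^ 3 = σ * n →
        e ∈ I.biUnion fun i => (range (Nat.log 2 B + 1)).biUnion fun j => Nn.biUnion fun n =>
        (Icc 1 (M / (n * 2 ^ i))).biUnion fun a => F i j n a 1 ∪ F i j n a (-1) := by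
      intro a τ p q σ hσ ha haτ hea hYτ hp hq hqB hcop heq
      have hτ0 : 0 < τ := lt_of_lt_of_le ha haτ
      have hpow1 : 2 ^ (Nat.log 2 τ) ≤ τ := Nat.pow_log_le_self 2 hτ0.ne'
      have hpow2 : τ < 2 ^ (Nat.log 2 τ + 1) := Nat.lt_pow_succ_log_self (by norm_num) τ
      rw [mem_biUnion]
      refine ⟨Nat.log 2 τ, ?_, ?_⟩
      · rw [hI, mem_filter, mem_range, Nat.lt_add_one_iff]
        constructor
        · apply Nat.log_mono_right
          calc τ ≤ τ * (a * n) := Nat.le_mul_of_pos_right τ (Nat.mul_pos ha hn0)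
            _ = e := by rw [hea]; ring
            _ ≤ M := heM
        · by_contra hc
          push Not at hc
          have e1 : (τ : ℝ) < 2 * T₀ := by
            have e2 : (τ : ℝ) < ((2 ^ (Nat.log 2 τ + 1) : ℕ) : ℝ) := by exact_mod_cast hpow2
            push_cast [pow_succ] at e2
            linarith
          have e3 : (Y : ℝ) < (τ : ℝ) * τ := by exact_mod_cast hYτ
          have e4 : (0 : ℝ) < τ := by exact_mod_cast hτ0
          nlinarith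
      rw [mem_biUnion]
      refine ⟨Nat.log 2 q, ?_, ?_⟩
      · rw [mem_range, Nat.lt_add_one_iff]
        exact Nat.log_mono_right hqB
      rw [mem_biUnion]
      refine ⟨n, ?_, ?_⟩
      · rw [hNn, mem_filter, mem_Icc]
        exact ⟨⟨hn0, hnM⟩, hnY⟩
      rw [mem_biUnion]
      refine ⟨a, ?_, ?_⟩
      · rw [mem_Icc]
        refine ⟨ha, ?_⟩
        rw [Nat.le_div_iff_mul_le (Nat.mul_pos hn0 (pow_pos (by norm_num) _))]
        calc a * (n * 2 ^ (Nat.log 2 τ)) ≤ a * (n * τ) :=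
              Nat.mul_le_mul_left _ (Nat.mul_le_mul_left _ hpow1)
          _ = e := by rw [hea]; ring
          _ ≤ M := heM
      · have hmem : e ∈ F (Nat.log 2 τ) (Nat.log 2 q) n a σ := by
          rw [hF, mem_filter, mem_Icc]
          exact ⟨⟨he1, heM⟩, ha, hn0, τ, p, q, hea, hpow1, hpow2, Nat.pow_log_le_self 2 hq.ne',
            Nat.lt_pow_succ_log_self (by norm_num) q, hqB, hp, hcop, heq⟩
        rw [mem_union]
        rcases hσ with h1 | h1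
        · left; rw [← h1]; exact hmem
        · right; rw [← h1]; exact hmem
    have hn2' : (s : ℤ) * v ^ 3 = r * u ^ 3 + n := by exact_mod_cast hn2
    rcases le_total s r with hsr | hsr
    · refine key s r v u 1 (Or.inl rfl) h.hs hsr (by rw [he']; ring) ?_ h.hv h.hu h.huB
        h.cop.symm ?_
      · exact lt_of_lt_of_le hrs (Nat.mul_le_mul_left _ hsr)
      · linear_combination hn2'
    · refine key r s u v (-1) (Or.inr rfl) h.hr hsr he' ?_ h.hu h.hv h.hvB h.cop ?_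
      · exact lt_of_lt_of_le hrs (Nat.mul_le_mul_right _ hsr)
      · linear_combination -hn2'
  -- bound of one set
  have hone : ∀ i ∈ I, ∀ j, ∀ n ∈ Nn, ∀ a (σ : ℤ), (σ = 1 ∨ σ = -1) →
      ((F i j n a σ).card : ℝ) ≤ 6 * ((2 : ℝ) ^ i) ^ κ := by
    intro i hi j n hn a σ hσ
    rw [hI, mem_filter] at hi
    rw [hNn, mem_filter] at hn
    have hTi := hi.2
    have h1 : T₀ ^ ((1 : ℝ) / 5) ≤ ((2 : ℝ) ^ i) ^ ((1 : ℝ) / 5) :=
      Real.rpow_le_rpow hT₀0.le hTi (by norm_num)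
    have h2 : T₀ ^ ((1 : ℝ) / 2500) ≤ ((2 : ℝ) ^ i) ^ ((1 : ℝ) / 2500) :=
      Real.rpow_le_rpow hT₀0.le hTi (by norm_num)
    refine card_F κ S₀ hS₀ hd B M i j n a σ hσ (hT₀.trans hTi) ?_ (by linarith)
    refine le_trans (le_trans ?_ hY) h1
    exact pow_le_pow_left₀ (Nat.cast_nonneg n) hn.2 2
  have hlogM : 0 ≤ Real.log M := Real.log_natCast_nonneg M
  have hM0 : (0 : ℝ) < M := by exact_mod_cast hM
  have hc1 : ((((Icc 1 M).filter fun e => ∃ r s u v : ℕ, Rep X₁ B e r s u v ∧ Y < r * s).card : ℕ) : ℝ)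
      ≤ ∑ i ∈ I, ∑ _j ∈ range (Nat.log 2 B + 1), ∑ n ∈ Nn, ∑ _a ∈ Icc 1 (M / (n * 2 ^ i)),
        (12 * ((2 : ℝ) ^ i) ^ κ) := by
    have h1 := (card_le_card hcov).trans card_biUnion_le
    have h2 : ((((Icc 1 M).filter fun e => ∃ r s u v : ℕ, Rep X₁ B e r s u v ∧
        Y < r * s).card : ℕ) : ℝ) ≤ ∑ i ∈ I,
        (((range (Nat.log 2 B + 1)).biUnion fun j => Nn.biUnion fun n =>
        (Icc 1 (M / (n * 2 ^ i))).biUnion fun a => F i j n a 1 ∪ F i j n a (-1)).card : ℝ) := by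
      exact_mod_cast h1
    refine h2.trans (sum_le_sum fun i hi => ?_)
    have h3 : (((range (Nat.log 2 B + 1)).biUnion fun j => Nn.biUnion fun n =>
        (Icc 1 (M / (n * 2 ^ i))).biUnion fun a => F i j n a 1 ∪ F i j n a (-1)).card : ℝ) ≤
        ∑ j ∈ range (Nat.log 2 B + 1), ((Nn.biUnion fun n =>
        (Icc 1 (M / (n * 2 ^ i))).biUnion fun a => F i j n a 1 ∪ F i j n a (-1)).card : ℝ) := by
      exact_mod_cast card_biUnion_le
    refine h3.trans (sum_le_sum fun j _ => ?_)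
    have h4 : ((Nn.biUnion fun n =>
        (Icc 1 (M / (n * 2 ^ i))).biUnion fun a => F i j n a 1 ∪ F i j n a (-1)).card : ℝ) ≤
        ∑ n ∈ Nn, (((Icc 1 (M / (n * 2 ^ i))).biUnion fun a =>
          F i j n a 1 ∪ F i j n a (-1)).card : ℝ) := by
      exact_mod_cast card_biUnion_le
    refine h4.trans (sum_le_sum fun n hn => ?_)
    have h5 : (((Icc 1 (M / (n * 2 ^ i))).biUnion fun a =>
          F i j n a 1 ∪ F i j n a (-1)).card : ℝ) ≤ ∑ a ∈ Icc 1 (M / (n * 2 ^ i)),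
          ((F i j n a 1 ∪ F i j n a (-1)).card : ℝ) := by
      exact_mod_cast card_biUnion_le
    refine h5.trans (sum_le_sum fun a _ => ?_)
    have h6 : ((F i j n a 1 ∪ F i j n a (-1)).card : ℝ) ≤
        (F i j n a 1).card + (F i j n a (-1)).card := by exact_mod_cast card_union_le _ _
    have h7 := hone i hi j n hn a 1 (Or.inl rfl)
    have h8 := hone i hi j n hn a (-1) (Or.inr rfl)
    linarith
  refine hc1.trans ?_
  have hstep : ∀ i ∈ I, ∑ _j ∈ range (Nat.log 2 B + 1), ∑ n ∈ Nn, ∑ _a ∈ Icc 1 (M / (n * 2 ^ i)),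
        (12 * ((2 : ℝ) ^ i) ^ κ) ≤ ((Nat.log 2 B + 1 : ℕ) : ℝ) *
        (12 * M * (1 + Real.log M) * T₀ ^ (κ - 1)) := by
    intro i hi
    rw [sum_const, card_range, nsmul_eq_mul]
    refine mul_le_mul_of_nonneg_left ?_ (Nat.cast_nonneg _)
    rw [hI, mem_filter] at hi
    have hTi := hi.2
    have hP0 : (0 : ℝ) < (2 : ℝ) ^ i := by positivity
    have h1 : ∀ n ∈ Nn, ∑ _a ∈ Icc 1 (M / (n * 2 ^ i)), (12 * ((2 : ℝ) ^ i) ^ κ) ≤
        12 * ((2 : ℝ) ^ i) ^ κ * (M / 2 ^ i) * (1 / (n : ℝ)) := by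
      intro n hn
      rw [hNn, mem_filter, mem_Icc] at hn
      have hn0 : (0 : ℝ) < n := by exact_mod_cast hn.1.1
      rw [sum_const, Nat.card_Icc, nsmul_eq_mul, add_tsub_cancel_right]
      have h2 : ((M / (n * 2 ^ i) : ℕ) : ℝ) ≤ M / (n * 2 ^ i) := by
        refine Nat.cast_div_le.trans ?_
        push_cast
        exact le_rfl
      calc ((M / (n * 2 ^ i) : ℕ) : ℝ) * (12 * ((2 : ℝ) ^ i) ^ κ)
          ≤ M / (n * 2 ^ i) * (12 * ((2 : ℝ) ^ i) ^ κ) := by gcongr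
        _ = 12 * ((2 : ℝ) ^ i) ^ κ * (M / 2 ^ i) * (1 / (n : ℝ)) := by
            field_simp
    refine (sum_le_sum h1).trans ?_
    rw [← mul_sum]
    have h3 : ∑ n ∈ Nn, (1 / (n : ℝ)) ≤ 1 + Real.log M := by
      refine le_trans (sum_le_sum_of_subset_of_nonneg (t := Icc 1 M) ?_ ?_)
        (Pool.Agent.H49TW.harm M)
      · exact filter_subset _ _
      · intros; positivity
    have h4 : ((2 : ℝ) ^ i) ^ κ * (M / 2 ^ i) ≤ M * T₀ ^ (κ - 1) := by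
      have h5 : ((2 : ℝ) ^ i) ^ κ * (M / 2 ^ i) = M * ((2 : ℝ) ^ i) ^ (κ - 1) := by
        rw [Real.rpow_sub_one hP0.ne']
        ring
      rw [h5]
      refine mul_le_mul_of_nonneg_left ?_ hM0.le
      exact Real.rpow_le_rpow_of_nonpos hT₀0 hTi (by linarith)
    calc 12 * ((2 : ℝ) ^ i) ^ κ * (M / 2 ^ i) * ∑ n ∈ Nn, (1 / (n : ℝ))
        = 12 * (((2 : ℝ) ^ i) ^ κ * (M / 2 ^ i)) * ∑ n ∈ Nn, (1 / (n : ℝ)) := by ring
      _ ≤ 12 * (M * T₀ ^ (κ - 1)) * (1 + Real.log M) := by gcongr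
      _ = 12 * M * (1 + Real.log M) * T₀ ^ (κ - 1) := by ring
  refine (sum_le_sum hstep).trans ?_
  rw [sum_const, nsmul_eq_mul, mul_assoc ((Nat.log 2 M + 1 : ℕ) : ℝ)]
  refine mul_le_mul_of_nonneg_right ?_ (by positivity)
  have h1 : I.card ≤ Nat.log 2 M + 1 := by
    rw [hI]
    exact (card_filter_le _ _).trans (by rw [card_range])
  exact_mod_cast h1

end Pool.Agent.H49CT
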