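import Mathlib

/-! Cubic twists with three-torsion: the descent. -/

set_option autoImplicit false

namespace Pool.Agent.H49CT

/-- two numbers whose product is a cube -/
theorem dec (x : ℕ) : ∀ P Q : ℕ, 0 < x → P * Q = x ^ 3 → ∃ r s u v : ℕ, 0 < r ∧ 0 < s ∧ 0 < u ∧
    0 < v ∧ P = r * s ^ 2 * v ^ 3 ∧ Q = r ^ 2 * s * u ^ 3 ∧ x = r * s * u * v := by
  induction x using Nat.strong_induction_on with
  | _ x ih =>
    intro P Q hx h
    by_cases hx1 : x = 1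
    · subst hx1
      have h1 : P * Q = 1 := by rw [h]; norm_num
      have h2 : P = 1 := Nat.eq_one_of_mul_eq_one_right h1
      have h3 : Q = 1 := Nat.eq_one_of_mul_eq_one_left h1
      exact ⟨1, 1, 1, 1, one_pos, one_pos, one_pos, one_pos, by simp [h2], by simp [h3], by simp⟩
    obtain ⟨p, hp, x', rfl⟩ : ∃ p, p.Prime ∧ ∃ x', x = p * x' := by
      obtain ⟨p, hp, hpx⟩ := Nat.exists_prime_and_dvd hx1
      exact ⟨p, hp, hpx⟩
    have hp0 : 0 < p := hp.pos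
    have hx' : 0 < x' := Nat.pos_of_mul_pos_left hx
    have hlt : x' < p * x' := by
      have := hp.two_le
      nlinarith
    have hdP : p ∣ P * Q := ⟨p ^ 2 * x' ^ 3, by rw [h]; ring⟩
    -- the four cases
    have caseA : ∀ P₁ Q₁, P = p * P₁ → Q = p ^ 2 * Q₁ → ∃ r s u v : ℕ, 0 < r ∧ 0 < s ∧ 0 < u ∧
        0 < v ∧ P = r * s ^ 2 * v ^ 3 ∧ Q = r ^ 2 * s * u ^ 3 ∧ p * x' = r * s * u * v := by
      intro P₁ Q₁ h1 h2
      have h3 : P₁ * Q₁ = x' ^ 3 := by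
        apply Nat.eq_of_mul_eq_mul_left (pow_pos hp0 3)
        rw [h1, h2] at h
        calc p ^ 3 * (P₁ * Q₁) = p * P₁ * (p ^ 2 * Q₁) := by ring
          _ = (p * x') ^ 3 := h
          _ = p ^ 3 * x' ^ 3 := by ring
      obtain ⟨r, s, u, v, hr, hs, hu, hv, h4, h5, h6⟩ := ih x' hlt P₁ Q₁ hx' h3
      refine ⟨p * r, s, u, v, by positivity, hs, hu, hv, ?_, ?_, ?_⟩
      · rw [h1, h4]; ring
      · rw [h2, h5]; ring
      · rw [h6]; ring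
    have caseB : ∀ P₁ Q₁, P = p ^ 2 * P₁ → Q = p * Q₁ → ∃ r s u v : ℕ, 0 < r ∧ 0 < s ∧ 0 < u ∧
        0 < v ∧ P = r * s ^ 2 * v ^ 3 ∧ Q = r ^ 2 * s * u ^ 3 ∧ p * x' = r * s * u * v := by
      intro P₁ Q₁ h1 h2
      have h3 : P₁ * Q₁ = x' ^ 3 := by
        apply Nat.eq_of_mul_eq_mul_left (pow_pos hp0 3)
        rw [h1, h2] at h
        calc p ^ 3 * (P₁ * Q₁) = p ^ 2 * P₁ * (p * Q₁) := by ring
          _ = (p * x') ^ 3 := h
          _ = p ^ 3 * x' ^ 3 := by ring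
      obtain ⟨r, s, u, v, hr, hs, hu, hv, h4, h5, h6⟩ := ih x' hlt P₁ Q₁ hx' h3
      refine ⟨r, p * s, u, v, hr, by positivity, hu, hv, ?_, ?_, ?_⟩
      · rw [h1, h4]; ring
      · rw [h2, h5]; ring
      · rw [h6]; ring
    have caseC : ∀ P₁, P = p ^ 3 * P₁ → ∃ r s u v : ℕ, 0 < r ∧ 0 < s ∧ 0 < u ∧
        0 < v ∧ P = r * s ^ 2 * v ^ 3 ∧ Q = r ^ 2 * s * u ^ 3 ∧ p * x' = r * s * u * v := by
      intro P₁ h1
      have h3 : P₁ * Q = x' ^ 3 := by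
        apply Nat.eq_of_mul_eq_mul_left (pow_pos hp0 3)
        rw [h1] at h
        calc p ^ 3 * (P₁ * Q) = p ^ 3 * P₁ * Q := by ring
          _ = (p * x') ^ 3 := h
          _ = p ^ 3 * x' ^ 3 := by ring
      obtain ⟨r, s, u, v, hr, hs, hu, hv, h4, h5, h6⟩ := ih x' hlt P₁ Q hx' h3
      refine ⟨r, s, u, p * v, hr, hs, hu, by positivity, ?_, h5, ?_⟩
      · rw [h1, h4]; ring
      · rw [h6]; ring
    have caseD : ∀ Q₁, Q = p ^ 3 * Q₁ → ∃ r s u v : ℕ, 0 < r ∧ 0 < s ∧ 0 < u ∧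
        0 < v ∧ P = r * s ^ 2 * v ^ 3 ∧ Q = r ^ 2 * s * u ^ 3 ∧ p * x' = r * s * u * v := by
      intro Q₁ h1
      have h3 : P * Q₁ = x' ^ 3 := by
        apply Nat.eq_of_mul_eq_mul_left (pow_pos hp0 3)
        rw [h1] at h
        calc p ^ 3 * (P * Q₁) = P * (p ^ 3 * Q₁) := by ring
          _ = (p * x') ^ 3 := h
          _ = p ^ 3 * x' ^ 3 := by ring
      obtain ⟨r, s, u, v, hr, hs, hu, hv, h4, h5, h6⟩ := ih x' hlt P Q₁ hx' h3
      refine ⟨r, s, p * u, v, hr, hs, by positivity, hv, h4, ?_, ?_⟩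
      · rw [h1, h5]; ring
      · rw [h6]; ring
    by_cases hpP : p ∣ P
    · by_cases hpQ : p ∣ Q
      · obtain ⟨P', rfl⟩ := hpP
        obtain ⟨Q', rfl⟩ := hpQ
        have h1 : P' * Q' = p * x' ^ 3 := by
          apply Nat.eq_of_mul_eq_mul_left (pow_pos hp0 2)
          calc p ^ 2 * (P' * Q') = p * P' * (p * Q') := by ring
            _ = (p * x') ^ 3 := h
            _ = p ^ 2 * (p * x' ^ 3) := by ring
        rcases (Nat.Prime.dvd_mul hp).1 ⟨x' ^ 3, h1⟩ with ⟨P'', rfl⟩ | ⟨Q'', rfl⟩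
        · exact caseB P'' Q' (by ring) rfl
        · exact caseA P' Q'' rfl (by ring)
      · have h1 : p ^ 3 ∣ P := by
          have h2 : (p ^ 3).Coprime Q := Nat.Coprime.pow_left 3 ((Nat.Prime.coprime_iff_not_dvd hp).2 hpQ)
          exact h2.dvd_of_dvd_mul_right ⟨x' ^ 3, by rw [h]; ring⟩
        obtain ⟨P₁, hP₁⟩ := h1
        exact caseC P₁ hP₁
    · have h1 : p ^ 3 ∣ Q := by
        have h2 : (p ^ 3).Coprime P := Nat.Coprime.pow_left 3 ((Nat.Prime.coprime_iff_not_dvd hp).2 hpP)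
        exact h2.dvd_of_dvd_mul_left ⟨x' ^ 3, by rw [h]; ring⟩
      obtain ⟨Q₁, hQ₁⟩ := h1
      exact caseD Q₁ hQ₁

/-- the descent for `y² = x³ + D²` -/
theorem data (D : ℕ) (x y : ℤ) (hD : 1 ≤ D) (hx : 0 < x) (h : y ^ 2 = x ^ 3 + (D : ℤ) ^ 2) :
    ∃ r s u v g : ℕ, 0 < r ∧ 0 < s ∧ 0 < u ∧ 0 < v ∧ 0 < g ∧ Nat.Coprime u v ∧
      r * u ^ 3 < s * v ^ 3 ∧ 2 * D = g ^ 3 * (r * s * (s * v ^ 3 - r * u ^ 3)) ∧
      x.natAbs = r * s * g ^ 2 * u * v := by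
  obtain ⟨X, rfl⟩ : ∃ X : ℕ, x = X := ⟨x.toNat, by omega⟩
  have hX : 0 < X := by exact_mod_cast hx
  obtain ⟨Y, hY⟩ : ∃ Y : ℕ, y.natAbs = Y := ⟨_, rfl⟩
  have h1 : Y ^ 2 = X ^ 3 + D ^ 2 := by
    have : ((Y : ℕ) : ℤ) ^ 2 = X ^ 3 + D ^ 2 := by
      rw [← hY, Int.natAbs_sq, h]
    exact_mod_cast this
  have hDY : D < Y := by
    have h2 : D ^ 2 < Y ^ 2 := by
      rw [h1]
      have : 0 < X ^ 3 := by positivity
      omega
    exact lt_of_pow_lt_pow_left₀ 2 (Nat.zero_le _) h2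
  obtain ⟨k, hk⟩ : ∃ k, Y = D + k := ⟨Y - D, by omega⟩
  have h3 : (Y + D) * k = X ^ 3 := by
    have : Y ^ 2 = X ^ 3 + D ^ 2 := h1
    rw [hk] at this ⊢
    nlinarith
  obtain ⟨r, s, u', v', hr, hs, hu, hv, hP, hQ, hX'⟩ := dec X (Y + D) k hX h3
  obtain ⟨g, hg⟩ : ∃ g, g = Nat.gcd u' v' := ⟨_, rfl⟩
  have hg0 : 0 < g := by rw [hg]; exact Nat.gcd_pos_of_pos_left _ hu
  obtain ⟨u, hu'⟩ : g ∣ u' := by rw [hg]; exact Nat.gcd_dvd_left _ _
  obtain ⟨v, hv'⟩ : g ∣ v' := by rw [hg]; exact Nat.gcd_dvd_right _ _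
  have hcop : Nat.Coprime u v := by
    have e1 : Nat.gcd (g * u) (g * v) = g := by rw [← hu', ← hv', ← hg]
    rw [Nat.gcd_mul_left] at e1
    exact Nat.eq_of_mul_eq_mul_left hg0 (by rw [e1, mul_one])
  have hu0 : 0 < u := by
    rcases Nat.eq_zero_or_pos u with h0 | h0
    · rw [h0, mul_zero] at hu'; omega
    · exact h0
  have hv0 : 0 < v := by
    rcases Nat.eq_zero_or_pos v with h0 | h0
    · rw [h0, mul_zero] at hv'; omega
    · exact h0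
  -- 2 D = P - Q
  have h2D : r ^ 2 * s * u' ^ 3 + 2 * D = r * s ^ 2 * v' ^ 3 := by
    rw [← hP, ← hQ, hk]; ring
  rw [hu', hv'] at h2D
  have h2D' : g ^ 3 * (r * s) * (r * u ^ 3) + 2 * D = g ^ 3 * (r * s) * (s * v ^ 3) := by
    linear_combination h2D
  have hc0 : 0 < g ^ 3 * (r * s) := by positivity
  have hlt : r * u ^ 3 < s * v ^ 3 := by
    apply Nat.lt_of_mul_lt_mul_left (a := g ^ 3 * (r * s))
    rw [← h2D']
    omega
  refine ⟨r, s, u, v, g, hr, hs, hu0, hv0, hg0, hcop, hlt, ?_, ?_⟩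
  · obtain ⟨n, hn⟩ : ∃ n, s * v ^ 3 = r * u ^ 3 + n := ⟨s * v ^ 3 - r * u ^ 3, by omega⟩
    rw [hn, Nat.add_sub_cancel_left]
    rw [hn] at h2D'
    have e1 : g ^ 3 * (r * s) * (r * u ^ 3) + 2 * D =
        g ^ 3 * (r * s) * (r * u ^ 3) + g ^ 3 * (r * s * n) := by
      rw [h2D']; ring
    exact Nat.add_left_cancel e1
  · rw [Int.natAbs_natCast, hX', hu', hv']
    ring

end Pool.Agent.H49CT
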