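import Pool.Agent.H49CT.Va
import Pool.Agent.H49CT.Cub
import Pool.Agent.W303.HZ.IN2
import Pool.Agent.W284.HZ.FIB

/-! Cubic twists with three-torsion: one large parameter varies. -/

set_option autoImplicit false

namespace Pool.Agent.H49CT

open Polynomial Pool.Agent.W223.HZ Pool.Agent.W303.HZ.IN2

/-- an interval and a cell -/
theorem inn (hC : StmtC2R) (hB : StmtDPB) (hP : StmtPAR) (hR : StmtREL) (hPD : StmtPAD)
    (hPP : StmtPPR) (hA : StmtINA) : ∃ c₀ S₀ : ℝ, 0 < c₀ ∧ 1 ≤ S₀ ∧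
    ∀ (T Q V t : ℝ) (a n : ℤ) (p q : ℤ → ℤ) (𝒟 : Finset ℤ), 1 ≤ a →
    n ≠ 0 → (n : ℝ) ^ 2 ≤ T → S₀ ≤ T → T ^ ((1 : ℝ) / 2) ≤ V → V ^ 3 * |(n : ℝ)| = T * Q ^ 3 →
    1 ≤ Q → 0 < t → t ^ 6 * a = T → Real.log V ≤ T ^ ((1 : ℝ) / 2500) →
    (∀ d ∈ 𝒟, Pt T Q a n d (p d) (q d)) →
    (∀ d ∈ 𝒟, ∀ d' ∈ 𝒟, |(p d : ℝ) / (t ^ 2 * q d) - p d' / (t ^ 2 * q d')| ≤ c₀) →
    (∀ d ∈ 𝒟, ∀ d' ∈ 𝒟, |(d : ℝ) - d'| ≤ T ^ ((1 : ℝ) / 11)) →
    (𝒟.card : ℝ) ≤ T ^ ((1 : ℝ) / 22 + 1 / 400) := by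
  obtain ⟨c₀, S₁, hc₀, hS₁, hV⟩ := va hC hB hP
  obtain ⟨S₂, hS₂, hA⟩ := hA
  refine ⟨c₀, max (max S₁ S₂) 10, hc₀, le_trans hS₁ (le_trans (le_max_left _ _) (le_max_left _ _)), ?_⟩
  intro T Q V t a n p q 𝒟 ha hn hnT hS hV1 hV3 hQ ht ht6 hlog hG hcell hint
  have hSS₁ : S₁ ≤ T := le_trans (le_trans (le_max_left _ _) (le_max_left _ _)) hS
  have hSS₂ : S₂ ≤ T := le_trans (le_trans (le_max_right _ _) (le_max_left _ _)) hS
  have hS10 : 10 ≤ T := le_trans (le_max_right _ _) hS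
  have hS0 : 0 < T := by linarith
  have hT1 : 1 ≤ T := by linarith
  rcases Finset.eq_empty_or_nonempty 𝒟 with rfl | ⟨d₀, hd₀⟩
  · simp only [Finset.card_empty, Nat.cast_zero]
    exact Real.rpow_nonneg hS0.le _
  -- the exponent
  have hlS : 1 ≤ Real.log T := by
    rw [Real.le_log_iff_exp_le hS0]
    have := Real.exp_one_lt_d9
    linarith
  have hV0 : 0 < V := lt_of_lt_of_le (Real.rpow_pos_of_pos hS0 _) hV1
  obtain ⟨σ, hσ⟩ : ∃ σ : ℝ, σ = Real.log V / Real.log T := ⟨_, rfl⟩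
  have hVσ : V = T ^ σ := by
    rw [Real.rpow_def_of_pos hS0, hσ, mul_div_cancel₀ _ (by linarith : Real.log T ≠ 0)]
    exact (Real.exp_log hV0).symm
  have hlV : 1 / 2 * Real.log T ≤ Real.log V := by
    have := Real.log_le_log (Real.rpow_pos_of_pos hS0 _) hV1
    rwa [Real.log_rpow hS0] at this
  have hσ1 : 1 / 2 ≤ σ := by
    rw [hσ, le_div_iff₀ (by linarith)]
    exact hlV
  have hσ2 : σ ≤ T ^ ((1 : ℝ) / 2500) := by
    refine le_trans ?_ hlog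
    rw [hσ]
    exact div_le_self (by linarith) hlS
  obtain ⟨m, hm⟩ : ∃ m : ℕ, m = ⌈5 * σ⌉₊ := ⟨_, rfl⟩
  have hm1 : 1 ≤ m := by
    rw [hm, Nat.one_le_ceil_iff]
    linarith
  obtain ⟨L, hLdef⟩ : ∃ L : ℝ, L = T ^ ((1 : ℝ) / 11) := ⟨_, rfl⟩
  have hL1 : 1 ≤ L := by rw [hLdef]; exact Real.one_le_rpow (by linarith) (by norm_num)
  obtain ⟨Λ, hΛ1, hΛm, hΛe, hΛf⟩ := hA T σ m hSS₂ hσ1 hσ2 hm
  rw [← hLdef] at hΛe hΛf
  have hV1' : 1 ≤ V := by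
    rw [hVσ]; exact Real.one_le_rpow (by linarith) (by linarith)
  -- cube root of T
  obtain ⟨w, hw⟩ : ∃ w : ℝ, w = T ^ ((1 : ℝ) / 3) := ⟨_, rfl⟩
  have hw1 : 1 ≤ w := by rw [hw]; exact Real.one_le_rpow hT1 (by norm_num)
  have hw3 : w ^ 3 = T := by
    rw [hw, ← Real.rpow_natCast, ← Real.rpow_mul hS0.le]
    norm_num
  have ha' : (1 : ℝ) ≤ a := by exact_mod_cast ha
  have ht2 : t ^ 2 ≤ w := by
    by_contra hc
    push Not at hc
    have h1 : w ^ 3 < (t ^ 2) ^ 3 := pow_lt_pow_left₀ hc (by linarith) (by norm_num)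
    have h2 : (t ^ 2) ^ 3 ≤ T := by
      rw [← pow_mul, ← ht6]
      exact le_mul_of_one_le_right (by positivity) ha'
    linarith
  have hn1 : 1 ≤ |(n : ℝ)| := by exact_mod_cast Int.one_le_abs hn
  have hnT' : |(n : ℝ)| ≤ T := by
    have h1 : |(n : ℝ)| * 1 ≤ |(n : ℝ)| * |(n : ℝ)| := mul_le_mul_of_nonneg_left hn1 (abs_nonneg _)
    have h2 : |(n : ℝ)| * |(n : ℝ)| = (n : ℝ) ^ 2 := by rw [← pow_two, sq_abs]
    linarith
  have hQ0 : 0 < Q := by linarith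
  have hQV : Q ≤ V := by
    by_contra hc
    push Not at hc
    have h1 : V ^ 3 < Q ^ 3 := pow_lt_pow_left₀ hc hV0.le (by norm_num)
    have h2 : V ^ 3 * |(n : ℝ)| ≤ V ^ 3 * T := mul_le_mul_of_nonneg_left hnT' (by positivity)
    have h3 : T * Q ^ 3 ≤ T * V ^ 3 := by rw [← hV3]; linarith
    have h4 : Q ^ 3 ≤ V ^ 3 := le_of_mul_le_mul_left h3 hS0
    linarith
  have hV2 : 2 ≤ V := by
    refine le_trans ?_ hV1
    rw [← Real.sqrt_eq_rpow]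
    exact Real.le_sqrt_of_sq_le (by linarith)
  -- the matrix
  let A : {d // d ∈ 𝒟} → Fin m ⊕ Fin m → ℤ := fun i =>
    Sum.elim (fun j : Fin m => p i * ((i : ℤ) - d₀) ^ (j : ℕ))
      (fun j : Fin m => q i * ((i : ℤ) - d₀) ^ (j : ℕ))
  obtain ⟨H0, hH0⟩ : ∃ H0 : ℝ, H0 = 4 * w * V * L ^ m := ⟨_, rfl⟩
  have hLm : ∀ j : Fin m, L ^ (j : ℕ) ≤ L ^ m := fun j => pow_le_pow_right₀ hL1 j.2.le
  have hLm1 : 1 ≤ L ^ m := one_le_pow₀ hL1
  have hH01 : 1 ≤ H0 := by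
    rw [hH0]
    have h1 : 1 ≤ 4 * w := by linarith
    exact one_le_mul_of_one_le_of_one_le (one_le_mul_of_one_le_of_one_le h1 hV1') hLm1
  have hτ : ∀ d ∈ 𝒟, |((d - d₀ : ℤ) : ℝ)| ≤ L := by
    intro d hd
    push_cast
    rw [hLdef]
    exact hint d hd d₀ hd₀
  have hqb : ∀ d ∈ 𝒟, |(q d : ℝ)| ≤ 2 * V := by
    intro d hd
    have h1 := (hG d hd).hq1
    have h2 := (hG d hd).hq2
    rw [abs_of_pos (by linarith)]
    linarith
  have hpb : ∀ d ∈ 𝒟, |(p d : ℝ)| ≤ 4 * w * V := by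
    intro d hd
    have h1 := (hG d hd).hq1
    have h2 := (hG d hd).hq2
    have hq0 : (0 : ℝ) < q d := by linarith
    have hp0 : (0 : ℝ) < p d := by exact_mod_cast (hG d hd).hp
    have h3 := (y_bds hS0 hQ0 hV2 hV3 ht ht6 (hG d hd)).2
    rw [div_le_iff₀ (by positivity)] at h3
    rw [abs_of_pos hp0]
    calc (p d : ℝ) ≤ 2 * (t ^ 2 * q d) := h3
      _ ≤ 2 * (w * (2 * V)) := by
          have h4 : (q d : ℝ) ≤ 2 * V := by linarith
          gcongr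
      _ = 4 * w * V := by ring
  have hAb : ∀ i j, |(A i j : ℝ)| ≤ H0 := by
    rintro ⟨d, hd⟩ (j | j)
    · change |((p d * (d - d₀) ^ (j : ℕ) : ℤ) : ℝ)| ≤ H0
      rw [Int.cast_mul, Int.cast_pow, abs_mul, abs_pow, hH0]
      refine mul_le_mul (hpb d hd) ?_ (by positivity) (by positivity)
      exact (pow_le_pow_left₀ (abs_nonneg _) (hτ d hd) _).trans (hLm j)
    · change |((q d * (d - d₀) ^ (j : ℕ) : ℤ) : ℝ)| ≤ H0
      rw [Int.cast_mul, Int.cast_pow, abs_mul, abs_pow, hH0]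
      refine mul_le_mul ((hqb d hd).trans ?_) ?_ (by positivity) (by positivity)
      · have : V ≤ w * V := le_mul_of_one_le_left hV0.le hw1
        linarith
      · exact (pow_le_pow_left₀ (abs_nonneg _) (hτ d hd) _).trans (hLm j)
  have hdet : ∀ f : Fin m ⊕ Fin m → {d // d ∈ 𝒟},
      Matrix.det (Matrix.of fun i j => A (f i) j) = 0 := by
    intro f
    have h1 := hV T Q V σ t m a n d₀ (p d₀) (q d₀) (fun i => p (f i)) (fun i => q (f i))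
      (fun i => (f i : ℤ)) ha hn hnT hSS₁ hσ1 hVσ hV3 hQ ht ht6 hm (fun i => hG _ (f i).2)
      (hG d₀ hd₀) (fun i j => hcell _ (f i).2 _ (f j).2) (fun i => hcell _ (f i).2 _ hd₀)
      (fun i => hint _ (f i).2 _ hd₀)
    exact h1
  obtain ⟨v, hv0, hvA, hvb⟩ := hR A H0 hH01 ⟨⟨d₀, hd₀⟩⟩ hAb hdet
  have hcardκ : Fintype.card (Fin m ⊕ Fin m) = m + m := by simp
  rw [hcardκ] at hvb
  obtain ⟨Hb, hHb⟩ : ∃ Hb : ℝ, Hb = (((m + m : ℕ) : ℝ) * H0) ^ (m + m) := ⟨_, rfl⟩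
  have hmm1 : (1 : ℝ) ≤ ((m + m : ℕ) : ℝ) := by exact_mod_cast (by omega : 1 ≤ m + m)
  have hHb1 : 1 ≤ Hb := by
    rw [hHb]
    apply one_le_pow₀
    exact one_le_mul_of_one_le_of_one_le hmm1 hH01
  have hcf : ∀ (w : Fin m → ℤ), (∀ j, |(w j : ℝ)| ≤ Hb) → ∀ k, |((pol w).coeff k : ℝ)| ≤ Hb := by
    intro w hw k
    rw [coeff_pol]
    by_cases hk : k < m
    · rw [dif_pos hk]; exact hw _
    · rw [dif_neg hk]; simp only [Int.cast_zero, abs_zero]; linarith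
  have hne : pol (fun j => v (Sum.inl j)) ≠ 0 ∨ pol (fun j => v (Sum.inr j)) ≠ 0 := by
    obtain ⟨j, hj⟩ := Function.ne_iff.1 hv0
    rcases j with j | j
    · exact Or.inl (pol_ne _ j hj)
    · exact Or.inr (pol_ne _ j hj)
  have hexp : |(n : ℝ)| * (m * Hb * L ^ m) ≤ Real.exp Λ := by
    refine le_trans ?_ hΛe
    have h1 : |(n : ℝ)| * Hb ≤ (((m + m : ℕ) : ℝ) * (400 * T * T ^ σ * L ^ m)) ^ (m + m) := by
      have h2 : (((m + m : ℕ) : ℝ) * (400 * T * T ^ σ * L ^ m)) ^ (m + m) =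
          (100 * w ^ 2) ^ (m + m) * Hb := by
        rw [hHb, hH0, ← mul_pow, ← hVσ, ← hw3]
        congr 1
        ring
      rw [h2]
      refine mul_le_mul_of_nonneg_right ?_ (by linarith)
      calc |(n : ℝ)| ≤ T := hnT'
        _ = w ^ 3 := hw3.symm
        _ ≤ w ^ 4 := pow_le_pow_right₀ hw1 (by norm_num)
        _ = (w ^ 2) ^ 2 := by ring
        _ ≤ (100 * w ^ 2) ^ 2 := by
            refine pow_le_pow_left₀ (by positivity) ?_ 2
            nlinarith [sq_nonneg w]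
        _ ≤ (100 * w ^ 2) ^ (m + m) := by
            refine pow_le_pow_right₀ ?_ (by omega)
            nlinarith
    calc |(n : ℝ)| * (m * Hb * L ^ m) = m * (|(n : ℝ)| * Hb) * L ^ m := by ring
      _ ≤ m * (((m + m : ℕ) : ℝ) * (400 * T * T ^ σ * L ^ m)) ^ (m + m) * L ^ m := by
          gcongr
  have hfin := cub hPD hR hPP a n d₀ (by omega) hn (pol fun j => v (Sum.inl j))
    (pol fun j => v (Sum.inr j)) m
    hne (natDegree_pol hm1 _) (natDegree_pol hm1 _) L Hb Λ hL1 hHb1 hΛ1 hΛm hexp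
    (hcf _ fun j => by rw [hHb]; exact hvb _)
    (𝒟.image fun d => d - d₀) (by
      intro τ hτ'
      obtain ⟨d, hd, rfl⟩ := Finset.mem_image.1 hτ'
      exact hτ d hd) (by
      intro τ hτ'
      obtain ⟨d, hd, rfl⟩ := Finset.mem_image.1 hτ'
      refine ⟨p d, q d, ?_, (hG d hd).hcop, ?_, ?_⟩
      · have h1 := (hG d hd).hq1
        intro h0
        rw [h0] at h1
        simp at h1
        linarith
      · have h1 := hvA ⟨d, hd⟩
        rw [Fintype.sum_sum_type] at h1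
        rw [eval_pol, eval_pol, Finset.mul_sum, Finset.mul_sum, ← h1]
        congr 1
        · refine Finset.sum_congr rfl fun j _ => ?_
          change _ = p d * (d - d₀) ^ (j : ℕ) * v (Sum.inl j)
          ring
        · refine Finset.sum_congr rfl fun j _ => ?_
          change _ = q d * (d - d₀) ^ (j : ℕ) * v (Sum.inr j)
          ring
      · have h1 := (hG d hd).heq
        rw [show d₀ + (d - d₀) = d by ring]
        exact h1)
  rw [Finset.card_image_of_injective _ (fun x y h => by simpa using h)] at hfin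
  exact hfin.trans hΛf

/-- the values of the large parameter -/
theorem fib0 (hC : StmtC2R) (hB : StmtDPB) (hP : StmtPAR) (hR : StmtREL) (hPD : StmtPAD)
    (hPP : StmtPPR) (hA : StmtINA) : ∃ S₀ : ℝ, 1 ≤ S₀ ∧
    ∀ (T Q V t : ℝ) (a n : ℤ) (𝒟 : Finset ℤ), 1 ≤ a →
    n ≠ 0 → (n : ℝ) ^ 2 ≤ T → S₀ ≤ T → T ^ ((1 : ℝ) / 2) ≤ V → V ^ 3 * |(n : ℝ)| = T * Q ^ 3 →
    1 ≤ Q → 0 < t → t ^ 6 * a = T → Real.log V ≤ T ^ ((1 : ℝ) / 2500) →
    (∀ d ∈ 𝒟, ∃ p q : ℤ, Pt T Q a n d p q) →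
    (𝒟.card : ℝ) ≤ T ^ (1 - (1 : ℝ) / 22 + 1 / 300) := by
  obtain ⟨c₂, S₂, hc₂, hS₂, h2⟩ := inn hC hB hP hR hPD hPP hA
  obtain ⟨K, hK⟩ : ∃ K : ℝ, K = 6 * (2 * (2 / c₂) + 2) := ⟨_, rfl⟩
  have hK1 : 1 ≤ K := by
    have e1 : 0 < 2 / c₂ := by positivity
    rw [hK]
    linarith
  obtain ⟨S₃, hS₃⟩ : ∃ S₃ : ℝ, S₃ = K ^ (1200 : ℝ) := ⟨_, rfl⟩
  refine ⟨max (max 10 S₂) S₃, le_trans hS₂ (le_trans (le_max_right _ _) (le_max_left _ _)),
    ?_⟩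
  intro T Q V t a n 𝒟 ha hn hnT hS hV hV3 hQ ht ht6 hlog hex
  have hS10 : 10 ≤ T := le_trans (le_trans (le_max_left _ _) (le_max_left _ _)) hS
  have hSS2 : S₂ ≤ T := le_trans (le_trans (le_max_right _ _) (le_max_left _ _)) hS
  have hSK : S₃ ≤ T := le_trans (le_max_right _ _) hS
  have hS1 : 1 ≤ T := by linarith
  have hS0 : 0 < T := by linarith
  have hV0 : 0 < V := lt_of_lt_of_le (Real.rpow_pos_of_pos hS0 _) hV
  have hV2 : 2 ≤ V := by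
    refine le_trans ?_ hV
    rw [← Real.sqrt_eq_rpow]
    exact Real.le_sqrt_of_sq_le (by linarith)
  choose! p q hpq using hex
  set L : ℝ := T ^ ((1 : ℝ) / 11) with hL
  have hL0 : 0 < L := Real.rpow_pos_of_pos hS0 _
  set B : ℝ := T ^ ((1 : ℝ) / 22 + 1 / 400) with hBdef
  have hB0 : 0 ≤ B := (Real.rpow_pos_of_pos hS0 _).le
  have k2 : (𝒟.card : ℝ) ≤ B * ((2 * (2 * T / L) + 2) * (2 * (2 / c₂) + 2)) := by
    refine Pool.Agent.W284.HZFIB.fibre 𝒟 (fun d => (p d : ℝ) / (t ^ 2 * q d)) (2 * T) L c₂ 2 B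
      (by positivity) hL0 hc₂ (by norm_num) hB0 ?_ ?_ ?_
    · intro d hd
      have h1 := (hpq d hd).hd1
      have h3 := (hpq d hd).hd2
      rw [abs_le]
      constructor <;> linarith
    · intro d hd
      have h1 := y_bds hS0 (by linarith) hV2 hV3 ht ht6 (hpq d hd)
      rw [abs_le]
      constructor <;> linarith [h1.1, h1.2]
    · intro D' hD' hyy hdd
      exact h2 T Q V t a n p q D' ha hn hnT hSS2 hV hV3 hQ ht ht6 hlog
        (fun d hd => hpq d (hD' hd)) hyy hdd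
  have hSL : T / L = T ^ ((10 : ℝ) / 11) := by
    rw [hL, div_eq_iff (Real.rpow_pos_of_pos hS0 _).ne', ← Real.rpow_add hS0]
    norm_num
  have hSL1 : 1 ≤ T / L := by
    rw [hSL]
    exact Real.one_le_rpow hS1 (by norm_num)
  have hKS : K ≤ T ^ ((1 : ℝ) / 1200) := by
    have e : K = S₃ ^ ((1 : ℝ) / 1200) := by
      rw [hS₃, ← Real.rpow_mul (by linarith)]
      norm_num
    rw [e]
    exact Real.rpow_le_rpow (by rw [hS₃]; positivity) hSK (by norm_num)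
  have hf : 2 * (2 * T / L) + 2 ≤ 6 * (T / L) := by
    rw [mul_div_assoc]
    linarith
  calc (𝒟.card : ℝ) ≤ B * ((2 * (2 * T / L) + 2) * (2 * (2 / c₂) + 2)) := k2
    _ ≤ B * ((6 * (T / L)) * (2 * (2 / c₂) + 2)) := by
      gcongr
    _ = K * (B * (T / L)) := by rw [hK]; ring
    _ ≤ T ^ ((1 : ℝ) / 1200) * (B * (T / L)) := by
      gcongr
    _ = T ^ (1 - (1 : ℝ) / 22 + 1 / 300) := by
      rw [hSL, hBdef, ← Real.rpow_add hS0, ← Real.rpow_add hS0]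
      norm_num

end Pool.Agent.H49CT
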