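import Pool.Agent.H49CT.Main

/-! Cubic twists with three-torsion: the choice of the parameters. -/

set_option autoImplicit false

namespace Pool.Agent.H49CT

open Finset Filter

/-- a constant is eventually below a positive power -/
lemma ev_const (K : ℝ) (ε : ℝ) (hε : 0 < ε) : ∀ᶠ n : ℕ in atTop, K ≤ (n : ℝ) ^ ε :=
  ((tendsto_rpow_atTop hε).comp tendsto_natCast_atTop_atTop).eventually_ge_atTop K

/-- the logarithm is eventually below a positive power -/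
lemma ev_log (K ε : ℝ) (hK : 0 < K) (hε : 0 < ε) :
    ∀ᶠ n : ℕ in atTop, K * Real.log n ≤ (n : ℝ) ^ ε := by
  filter_upwards [ev_const (K * (2 / ε)) (ε / 2) (by positivity), eventually_ge_atTop 1] with n h hn
  have hn1 : (1 : ℝ) ≤ n := by exact_mod_cast hn
  have h1 : Real.log n ≤ (n : ℝ) ^ (ε / 2) / (ε / 2) :=
    Real.log_le_rpow_div (by linarith) (by positivity)
  have h2 : (n : ℝ) ^ ε = (n : ℝ) ^ (ε / 2) * (n : ℝ) ^ (ε / 2) := by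
    rw [← Real.rpow_add (by linarith)]
    congr 1
    ring
  rw [h2]
  calc K * Real.log n ≤ K * ((n : ℝ) ^ (ε / 2) / (ε / 2)) := by gcongr
    _ = (K * (2 / ε)) * (n : ℝ) ^ (ε / 2) := by
        field_simp
    _ ≤ (n : ℝ) ^ (ε / 2) * (n : ℝ) ^ (ε / 2) := by gcongr

/-- the floor of a large power -/
lemma floor_ge (x : ℝ) (hx : 1 ≤ x) : x / 2 ≤ (⌊x⌋₊ : ℝ) := by
  have h1 := Nat.lt_floor_add_one x
  have h2 : (1 : ℝ) ≤ (⌊x⌋₊ : ℝ) := by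
    have : 1 ≤ ⌊x⌋₊ := Nat.le_floor (by exact_mod_cast hx)
    exact_mod_cast this
  linarith

lemma natlog_le (n : ℕ) (hn : 1 ≤ n) : (Nat.log 2 n : ℝ) ≤ 2 * Real.log n := by
  have h1 : (2 : ℝ) ^ (Nat.log 2 n) ≤ n := by
    have := Nat.pow_log_le_self 2 (by omega : n ≠ 0)
    exact_mod_cast this
  have h2 := Real.log_le_log (by positivity) h1
  rw [Real.log_pow] at h2
  have h3 := Real.log_two_gt_d9
  have h4 : (0 : ℝ) ≤ (Nat.log 2 n : ℝ) := Nat.cast_nonneg _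
  nlinarith

open Classical in
/-- the bound for large `N` -/
theorem main_large : ∃ C : ℝ, 0 < C ∧ ∀ᶠ N : ℕ in atTop,
    (((Icc 1 N).filter fun D => Exc N D).card : ℝ) ≤ C * (N : ℝ) ^ ((199 : ℝ) / 200) := by
  obtain ⟨C₁, hC₁, hsmall⟩ := card_small
  obtain ⟨S₀, hS₀, hd⟩ := dset
  refine ⟨C₁ + 2 + 2 + 24 + 96, by linarith, ?_⟩
  filter_upwards [eventually_ge_atTop 1, ev_const S₀ ((12 : ℝ) / 25) (by norm_num),
    ev_const 8 ((29 : ℝ) / 30 - 24 / 25) (by norm_num),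
    ev_const 16 ((12 : ℝ) / 125 - 1 / 15) (by norm_num),
    ev_const 2 ((12 : ℝ) / 62500 - 1 / 10000) (by norm_num),
    ev_log 2 (1 / 1000) (by norm_num) (by norm_num),
    ev_const 8 ((1 : ℝ) / 1000) (by norm_num),
    ev_log 8 (1 / 1000) (by norm_num) (by norm_num),
    ev_const 8 ((1 : ℝ) / 1000 - 1 / 10000) (by norm_num)] with N hN h1 h2 h3 h4 h5 h6 h7 h8
  have hN1 : (1 : ℝ) ≤ N := by exact_mod_cast hN
  have hN0 : (0 : ℝ) < N := by linarith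
  set L : ℝ := (N : ℝ) ^ ((1 : ℝ) / 1000) with hL
  have hL1 : 1 ≤ L := Real.one_le_rpow hN1 (by norm_num)
  have hL0 : 0 < L := by linarith
  have hlogN0 : 0 ≤ Real.log N := Real.log_nonneg hN1
  -- the parameters
  obtain ⟨G, hGdef⟩ : ∃ G : ℕ, G = ⌈(N : ℝ) ^ ((1 : ℝ) / 100)⌉₊ := ⟨_, rfl⟩
  obtain ⟨B, hB⟩ : ∃ B : ℕ, B = ⌊Real.exp ((N : ℝ) ^ ((1 : ℝ) / 10000))⌋₊ := ⟨_, rfl⟩
  obtain ⟨Y, hY⟩ : ∃ Y : ℕ, Y = ⌊(N : ℝ) ^ ((29 : ℝ) / 30)⌋₊ := ⟨_, rfl⟩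
  obtain ⟨X₁, hX₁⟩ : ∃ X₁ : ℝ, X₁ = (N : ℝ) ^ ((9 : ℝ) / 10) / (G : ℝ) ^ 2 := ⟨_, rfl⟩
  obtain ⟨T₀, hT₀⟩ : ∃ T₀ : ℝ, T₀ = (N : ℝ) ^ ((12 : ℝ) / 25) := ⟨_, rfl⟩
  have hGge : (N : ℝ) ^ ((1 : ℝ) / 100) ≤ G := by rw [hGdef]; exact Nat.le_ceil _
  have hG1' : (1 : ℝ) ≤ (N : ℝ) ^ ((1 : ℝ) / 100) := Real.one_le_rpow hN1 (by norm_num)
  have hGle : (G : ℝ) ≤ 2 * (N : ℝ) ^ ((1 : ℝ) / 100) := by
    have : (G : ℝ) < (N : ℝ) ^ ((1 : ℝ) / 100) + 1 := by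
      rw [hGdef]
      exact Nat.ceil_lt_add_one (by positivity)
    linarith
  have hG1r : (1 : ℝ) ≤ G := by linarith
  have hG1 : 1 ≤ G := by exact_mod_cast hG1r
  have hG0 : (0 : ℝ) < G := by linarith
  have hY1' : (1 : ℝ) ≤ (N : ℝ) ^ ((29 : ℝ) / 30) := Real.one_le_rpow hN1 (by norm_num)
  have hYle : (Y : ℝ) ≤ (N : ℝ) ^ ((29 : ℝ) / 30) := by
    rw [hY]; exact Nat.floor_le (by positivity)
  have hYge : (N : ℝ) ^ ((29 : ℝ) / 30) / 2 ≤ Y := by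
    rw [hY]; exact floor_ge _ hY1'
  have hY1 : 1 ≤ Y := by
    rw [hY]; exact Nat.le_floor (by exact_mod_cast hY1')
  have hY0 : (0 : ℝ) < Y := by exact_mod_cast hY1
  have hX0 : 0 < X₁ := by rw [hX₁]; positivity
  have hB1 : 1 ≤ B := by
    rw [hB]
    apply Nat.le_floor
    have : (0 : ℝ) ≤ (N : ℝ) ^ ((1 : ℝ) / 10000) := by positivity
    have := Real.add_one_le_exp ((N : ℝ) ^ ((1 : ℝ) / 10000))
    push_cast
    linarith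
  have hlogB : Real.log B ≤ (N : ℝ) ^ ((1 : ℝ) / 10000) := by
    have h9 : (B : ℝ) ≤ Real.exp ((N : ℝ) ^ ((1 : ℝ) / 10000)) := by
      rw [hB]; exact Nat.floor_le (Real.exp_pos _).le
    have h10 := Real.log_le_log (by exact_mod_cast hB1) h9
    rwa [Real.log_exp] at h10
  -- the bounds of the logarithms
  have hLB : ((Nat.log 2 B + 1 : ℕ) : ℝ) ≤ L := by
    push_cast
    have h9 := natlog_le B hB1
    have h10 : (1 : ℝ) ≤ (N : ℝ) ^ ((1 : ℝ) / 10000) := Real.one_le_rpow hN1 (by norm_num)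
    have h11 : L = (N : ℝ) ^ ((1 : ℝ) / 1000 - 1 / 10000) * (N : ℝ) ^ ((1 : ℝ) / 10000) := by
      rw [hL, ← Real.rpow_add hN0]
      norm_num
    rw [h11]
    calc (Nat.log 2 B : ℝ) + 1 ≤ 2 * (N : ℝ) ^ ((1 : ℝ) / 10000) + (N : ℝ) ^ ((1 : ℝ) / 10000) := by
          linarith
      _ ≤ 8 * (N : ℝ) ^ ((1 : ℝ) / 10000) := by linarith
      _ ≤ _ := by gcongr
  have hlog2N : Real.log ((2 * N : ℕ) : ℝ) ≤ 1 + Real.log N := by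
    push_cast
    rw [Real.log_mul (by norm_num) hN0.ne']
    have := Real.log_two_lt_d9
    linarith
  have hlog2N0 : 0 ≤ Real.log ((2 * N : ℕ) : ℝ) := Real.log_natCast_nonneg _
  have hLM : ((Nat.log 2 (2 * N) + 1 : ℕ) : ℝ) ≤ L := by
    have h9 := natlog_le (2 * N) (by omega)
    push_cast at h9 hlog2N ⊢
    have h10 : 2 * Real.log N * 4 ≤ L := by linarith
    linarith
  have hLlog : 1 + Real.log ((2 * N : ℕ) : ℝ) ≤ L := by linarith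
  have hLY : 1 + Real.log Y ≤ L := by
    have h9 : (Y : ℝ) ≤ N := hYle.trans (by
      calc (N : ℝ) ^ ((29 : ℝ) / 30) ≤ (N : ℝ) ^ (1 : ℝ) := rpow_mono hN1 (by norm_num)
        _ = N := Real.rpow_one _)
    have h10 := Real.log_le_log hY0 h9
    linarith
  have hLY0 : 0 ≤ 1 + Real.log Y := by
    have := Real.log_natCast_nonneg Y
    linarith
  -- the hypotheses
  have hT₀S : S₀ ≤ T₀ := by rw [hT₀]; exact h1
  have hTY : 4 * T₀ ^ 2 ≤ Y := by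
    have h9 : T₀ ^ 2 = (N : ℝ) ^ ((24 : ℝ) / 25) := by
      rw [hT₀, ← Real.rpow_natCast, ← Real.rpow_mul hN0.le]
      norm_num
    have h10 : (N : ℝ) ^ ((29 : ℝ) / 30) =
        (N : ℝ) ^ ((29 : ℝ) / 30 - 24 / 25) * (N : ℝ) ^ ((24 : ℝ) / 25) := by
      rw [← Real.rpow_add hN0]
      norm_num
    have h11 : 8 * (N : ℝ) ^ ((24 : ℝ) / 25) ≤ (N : ℝ) ^ ((29 : ℝ) / 30) := by
      rw [h10]
      gcongr
    rw [h9]
    linarith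
  have hMY : (((2 * N : ℕ) : ℝ) / Y) ^ 2 ≤ T₀ ^ ((1 : ℝ) / 5) := by
    have h9 : ((2 * N : ℕ) : ℝ) / Y ≤ 4 * (N : ℝ) ^ ((1 : ℝ) / 30) := by
      rw [div_le_iff₀ hY0]
      push_cast
      have h10 : (N : ℝ) = (N : ℝ) ^ ((1 : ℝ) / 30) * (N : ℝ) ^ ((29 : ℝ) / 30) := by
        rw [← Real.rpow_add hN0]
        norm_num
      calc 2 * (N : ℝ) = 4 * (N : ℝ) ^ ((1 : ℝ) / 30) * ((N : ℝ) ^ ((29 : ℝ) / 30) / 2) := by
            nth_rw 1 [h10]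
            ring
        _ ≤ 4 * (N : ℝ) ^ ((1 : ℝ) / 30) * Y := by gcongr
    have h11 : (((2 * N : ℕ) : ℝ) / Y) ^ 2 ≤ (4 * (N : ℝ) ^ ((1 : ℝ) / 30)) ^ 2 := by
      exact pow_le_pow_left₀ (by positivity) h9 2
    refine h11.trans ?_
    have h12 : T₀ ^ ((1 : ℝ) / 5) = (N : ℝ) ^ ((12 : ℝ) / 125 - 1 / 15) * (N : ℝ) ^ ((1 : ℝ) / 15) := by
      rw [hT₀, ← Real.rpow_mul hN0.le, ← Real.rpow_add hN0]
      norm_num
    have h13 : (4 * (N : ℝ) ^ ((1 : ℝ) / 30)) ^ 2 = 16 * (N : ℝ) ^ ((1 : ℝ) / 15) := by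
      rw [mul_pow, ← Real.rpow_natCast ((N : ℝ) ^ ((1 : ℝ) / 30)), ← Real.rpow_mul hN0.le]
      norm_num
    rw [h12, h13]
    gcongr
  have hBT : Real.log B ≤ 1 / 2 * T₀ ^ ((1 : ℝ) / 2500) := by
    refine hlogB.trans ?_
    have h9 : T₀ ^ ((1 : ℝ) / 2500) =
        (N : ℝ) ^ ((12 : ℝ) / 62500 - 1 / 10000) * (N : ℝ) ^ ((1 : ℝ) / 10000) := by
      rw [hT₀, ← Real.rpow_mul hN0.le, ← Real.rpow_add hN0]
      norm_num
    rw [h9]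
    have h10 : 0 ≤ (N : ℝ) ^ ((1 : ℝ) / 10000) := by positivity
    nlinarith
  -- the bounds
  have hA1 := hsmall N hN
  have hA2 := card_cubes N G hG1
  have hA3 := card_Ea X₁ B (2 * N) Y hX0 hY1
  have hA4 := card_Eb (1 - (1 : ℝ) / 22 + 1 / 300) (by norm_num) S₀ hS₀ hd X₁ T₀ B (2 * N) Y
    (by omega) hT₀S hTY hMY hBT
  have hcov := cover N G B Y X₁ hN hG1 hX₁ hB
  -- the second
  have hA2' : 2 * (N : ℝ) / (G : ℝ) ^ 2 ≤ 2 * (N : ℝ) ^ ((199 : ℝ) / 200) := by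
    rw [div_le_iff₀ (by positivity)]
    have h9 : (N : ℝ) ^ ((1 : ℝ) / 200) ≤ (G : ℝ) ^ 2 := by
      calc (N : ℝ) ^ ((1 : ℝ) / 200) ≤ (N : ℝ) ^ ((1 : ℝ) / 100) := rpow_mono hN1 (by norm_num)
        _ ≤ G := hGge
        _ ≤ (G : ℝ) ^ 2 := by nlinarith
    have h10 : (N : ℝ) = (N : ℝ) ^ ((199 : ℝ) / 200) * (N : ℝ) ^ ((1 : ℝ) / 200) := by
      rw [← Real.rpow_add hN0]
      norm_num
    calc 2 * (N : ℝ) = 2 * (N : ℝ) ^ ((199 : ℝ) / 200) * (N : ℝ) ^ ((1 : ℝ) / 200) := by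
          nth_rw 1 [h10]
          ring
      _ ≤ 2 * (N : ℝ) ^ ((199 : ℝ) / 200) * (G : ℝ) ^ 2 := by gcongr
  -- the root
  have hroot : (N : ℝ) ^ ((9 : ℝ) / 20) / G = √X₁ := by
    rw [hX₁, Real.sqrt_div (by positivity), Real.sqrt_sq hG0.le, Real.sqrt_eq_rpow,
      ← Real.rpow_mul hN0.le]
    norm_num
  have hA3' : G * (((Nat.log 2 B + 1 : ℕ) : ℝ) * (Y * (1 + Real.log Y) +
        3 * ((2 * N : ℕ) : ℝ) / √X₁ * (1 + Real.log Y) ^ 2)) ≤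
        (2 + 24) * (N : ℝ) ^ ((199 : ℝ) / 200) := by
    have e1 : 3 * ((2 * N : ℕ) : ℝ) / √X₁ = 6 * (N : ℝ) ^ ((11 : ℝ) / 20) * G := by
      rw [← hroot]
      push_cast
      have h9 : (N : ℝ) = (N : ℝ) ^ ((11 : ℝ) / 20) * (N : ℝ) ^ ((9 : ℝ) / 20) := by
        rw [← Real.rpow_add hN0]
        norm_num
      have h10 : (N : ℝ) ^ ((9 : ℝ) / 20) ≠ 0 := (by positivity : (0 : ℝ) < _).ne'
      rw [div_eq_iff (by positivity)]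
      nth_rw 1 [h9]
      field_simp
      norm_num
    rw [e1]
    have e2 : (Y : ℝ) * (1 + Real.log Y) ≤ (N : ℝ) ^ ((29 : ℝ) / 30) * L := by gcongr
    have e3 : 6 * (N : ℝ) ^ ((11 : ℝ) / 20) * G * (1 + Real.log Y) ^ 2 ≤
        6 * (N : ℝ) ^ ((11 : ℝ) / 20) * (2 * (N : ℝ) ^ ((1 : ℝ) / 100)) * L ^ 2 := by gcongr
    have e4 : 2 * (N : ℝ) ^ ((1 : ℝ) / 100) * (L * ((N : ℝ) ^ ((29 : ℝ) / 30) * L)) ≤
        2 * (N : ℝ) ^ ((199 : ℝ) / 200) := by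
      have : 2 * (N : ℝ) ^ ((1 : ℝ) / 100) * (L * ((N : ℝ) ^ ((29 : ℝ) / 30) * L)) =
          2 * (N : ℝ) ^ ((1 : ℝ) / 100 + 1 / 1000 + 29 / 30 + 1 / 1000) := by
        rw [hL, Real.rpow_add hN0, Real.rpow_add hN0, Real.rpow_add hN0]
        ring
      rw [this]
      exact mul_le_mul_of_nonneg_left (rpow_mono hN1 (by norm_num)) (by norm_num)
    have e5 : 2 * (N : ℝ) ^ ((1 : ℝ) / 100) * (L * (6 * (N : ℝ) ^ ((11 : ℝ) / 20) *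
        (2 * (N : ℝ) ^ ((1 : ℝ) / 100)) * L ^ 2)) ≤ 24 * (N : ℝ) ^ ((199 : ℝ) / 200) := by
      have : 2 * (N : ℝ) ^ ((1 : ℝ) / 100) * (L * (6 * (N : ℝ) ^ ((11 : ℝ) / 20) *
        (2 * (N : ℝ) ^ ((1 : ℝ) / 100)) * L ^ 2)) =
          24 * (N : ℝ) ^ ((1 : ℝ) / 100 + 1 / 1000 + 11 / 20 + 1 / 100 + 1 / 1000 + 1 / 1000) := by
        rw [hL, Real.rpow_add hN0, Real.rpow_add hN0, Real.rpow_add hN0, Real.rpow_add hN0,
          Real.rpow_add hN0]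
        ring
      rw [this]
      exact mul_le_mul_of_nonneg_left (rpow_mono hN1 (by norm_num)) (by norm_num)
    calc G * (((Nat.log 2 B + 1 : ℕ) : ℝ) * (Y * (1 + Real.log Y) +
          6 * (N : ℝ) ^ ((11 : ℝ) / 20) * G * (1 + Real.log Y) ^ 2))
        ≤ 2 * (N : ℝ) ^ ((1 : ℝ) / 100) * (L * ((N : ℝ) ^ ((29 : ℝ) / 30) * L +
          6 * (N : ℝ) ^ ((11 : ℝ) / 20) * (2 * (N : ℝ) ^ ((1 : ℝ) / 100)) * L ^ 2)) := by
          gcongr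
      _ = 2 * (N : ℝ) ^ ((1 : ℝ) / 100) * (L * ((N : ℝ) ^ ((29 : ℝ) / 30) * L)) +
          2 * (N : ℝ) ^ ((1 : ℝ) / 100) * (L * (6 * (N : ℝ) ^ ((11 : ℝ) / 20) *
          (2 * (N : ℝ) ^ ((1 : ℝ) / 100)) * L ^ 2)) := by ring
      _ ≤ (2 + 24) * (N : ℝ) ^ ((199 : ℝ) / 200) := by linarith
  have hA4' : G * (((Nat.log 2 (2 * N) + 1 : ℕ) : ℝ) * ((Nat.log 2 B + 1 : ℕ) : ℝ) *
        (12 * ((2 * N : ℕ) : ℝ) * (1 + Real.log ((2 * N : ℕ) : ℝ)) *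
          T₀ ^ ((1 - (1 : ℝ) / 22 + 1 / 300) - 1))) ≤ 96 * (N : ℝ) ^ ((199 : ℝ) / 200) := by
    have e1 : T₀ ^ ((1 - (1 : ℝ) / 22 + 1 / 300) - 1) ≤ (N : ℝ) ^ (-(2 : ℝ) / 100) := by
      rw [hT₀, ← Real.rpow_mul hN0.le]
      exact rpow_mono hN1 (by norm_num)
    have e0 : (0 : ℝ) ≤ 1 + Real.log ((2 * N : ℕ) : ℝ) := by linarith
    have eT : 0 < T₀ := by rw [hT₀]; positivity
    have e3 : 0 ≤ T₀ ^ ((1 - (1 : ℝ) / 22 + 1 / 300) - 1) := Real.rpow_nonneg eT.le _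
    have e2 : ((2 * N : ℕ) : ℝ) = 2 * (N : ℝ) ^ (1 : ℝ) := by
      rw [Real.rpow_one]
      push_cast
      ring
    calc G * (((Nat.log 2 (2 * N) + 1 : ℕ) : ℝ) * ((Nat.log 2 B + 1 : ℕ) : ℝ) *
        (12 * ((2 * N : ℕ) : ℝ) * (1 + Real.log ((2 * N : ℕ) : ℝ)) *
          T₀ ^ ((1 - (1 : ℝ) / 22 + 1 / 300) - 1)))
        ≤ 2 * (N : ℝ) ^ ((1 : ℝ) / 100) * (L * L *
        (12 * ((2 * N : ℕ) : ℝ) * L * (N : ℝ) ^ (-(2 : ℝ) / 100))) := by gcongr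
      _ = 48 * (N : ℝ) ^ ((1 : ℝ) / 100 + 1 / 1000 + 1 / 1000 + 1 + 1 / 1000 + (-(2 : ℝ) / 100)) := by
          rw [e2, hL, Real.rpow_add hN0, Real.rpow_add hN0, Real.rpow_add hN0, Real.rpow_add hN0,
            Real.rpow_add hN0]
          ring
      _ ≤ 48 * (N : ℝ) ^ ((199 : ℝ) / 200) :=
          mul_le_mul_of_nonneg_left (rpow_mono hN1 (by norm_num)) (by norm_num)
      _ ≤ 96 * (N : ℝ) ^ ((199 : ℝ) / 200) := by
          have : (0 : ℝ) ≤ (N : ℝ) ^ ((199 : ℝ) / 200) := by positivity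
          linarith
  refine hcov.trans ?_
  have h9 := mul_le_mul_of_nonneg_left hA3 hG0.le
  have h10 := mul_le_mul_of_nonneg_left hA4 hG0.le
  have h11 : (0 : ℝ) ≤ (N : ℝ) ^ ((199 : ℝ) / 200) := by positivity
  rw [mul_add]
  linarith

/-- the result -/
theorem main : ∃ C : ℝ, ∀ N : ℕ, 1 ≤ N →
    (({D : ℕ | 1 ≤ D ∧ D ≤ N ∧ ∃ x y : ℤ, x ≠ 0 ∧ y ^ 2 = x ^ 3 + (D : ℤ) ^ 2 ∧
      |(x : ℝ)| ≤ Real.exp ((N : ℝ) ^ ((1 : ℝ) / 10000))}.ncard : ℕ) : ℝ) ≤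
      C * (N : ℝ) ^ ((199 : ℝ) / 200) := by
  classical
  obtain ⟨C, hC, hev⟩ := main_large
  obtain ⟨N₁, hN₁⟩ := eventually_atTop.1 hev
  refine ⟨max C N₁, ?_⟩
  intro N hN
  have hN1 : (1 : ℝ) ≤ N := by exact_mod_cast hN
  have hset : {D : ℕ | 1 ≤ D ∧ D ≤ N ∧ ∃ x y : ℤ, x ≠ 0 ∧ y ^ 2 = x ^ 3 + (D : ℤ) ^ 2 ∧
      |(x : ℝ)| ≤ Real.exp ((N : ℝ) ^ ((1 : ℝ) / 10000))} =
      (((Icc 1 N).filter fun D => Exc N D : Finset ℕ) : Set ℕ) := by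
    ext D
    simp only [Set.mem_ofPred_eq, coe_filter, mem_Icc, Exc]
    tauto
  rw [hset, Set.ncard_coe_finset]
  have h11 : (1 : ℝ) ≤ (N : ℝ) ^ ((199 : ℝ) / 200) := Real.one_le_rpow hN1 (by norm_num)
  rcases le_total N₁ N with h | h
  · refine (hN₁ N h).trans ?_
    gcongr
    exact le_max_left _ _
  · have h1 : (((Icc 1 N).filter fun D => Exc N D).card : ℝ) ≤ N := by
      have : ((Icc 1 N).filter fun D => Exc N D).card ≤ N := by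
        refine (card_filter_le _ _).trans ?_
        rw [Nat.card_Icc, Nat.add_sub_cancel]
      exact_mod_cast this
    have h2 : (N : ℝ) ≤ N₁ := by exact_mod_cast h
    have h3 : (N₁ : ℝ) ≤ max C N₁ := le_max_right _ _
    have h4 : 0 ≤ max C (N₁ : ℝ) := hC.le.trans (le_max_left _ _)
    nlinarith

end Pool.Agent.H49CT
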