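import Pool.Agent.H49CT.CntB
import Pool.Agent.H49CT.Dec
import Pool.Agent.W75.PL.DIV

/-! Cubic twists with three-torsion: the result. -/

set_option autoImplicit false

namespace Pool.Agent.H49CT

open Finset

lemma rpow_mono {N α β : ℝ} (hN : 1 ≤ N) (h : α ≤ β) : N ^ α ≤ N ^ β :=
  Real.rpow_le_rpow_of_exponent_le hN h

open Classical in
/-- small points -/
theorem card_small : ∃ C : ℝ, 0 < C ∧ ∀ N : ℕ, 1 ≤ N →
    ((((Icc 1 N).filter fun D : ℕ => ∃ x y : ℤ, x ≠ 0 ∧ y ^ 2 = x ^ 3 + (D : ℤ) ^ 2 ∧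
      (x.natAbs : ℝ) ≤ (N : ℝ) ^ ((9 : ℝ) / 10)).card : ℕ) : ℝ) ≤ C * (N : ℝ) ^ ((199 : ℝ) / 200) := by
  obtain ⟨C, hC, hdiv⟩ := Pool.Agent.W75.PL.DIV.t (1 / 100) (by norm_num)
  refine ⟨3 * C, by linarith, ?_⟩
  intro N hN
  have hN1 : (1 : ℝ) ≤ N := by exact_mod_cast hN
  have hN0 : (0 : ℝ) < N := by linarith
  obtain ⟨K, hK⟩ : ∃ K : ℕ, K = ⌊(N : ℝ) ^ ((9 : ℝ) / 10)⌋₊ := ⟨_, rfl⟩
  have hKle : (K : ℝ) ≤ (N : ℝ) ^ ((9 : ℝ) / 10) := by
    rw [hK]; exact Nat.floor_le (by positivity)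
  have hcov : ((Icc 1 N).filter fun D : ℕ => ∃ x y : ℤ, x ≠ 0 ∧ y ^ 2 = x ^ 3 + (D : ℤ) ^ 2 ∧
      (x.natAbs : ℝ) ≤ (N : ℝ) ^ ((9 : ℝ) / 10)) ⊆
      (Icc (-(K : ℤ)) K).biUnion fun x => (x.natAbs ^ 3).divisors.image fun d : ℕ =>
        (((d : ℤ) - x ^ 3 / (d : ℤ)) / 2).toNat := by
    intro D hD
    rw [mem_filter, mem_Icc] at hD
    obtain ⟨⟨hD1, hDN⟩, x, y, hx, hxy, hxK⟩ := hD
    rw [mem_biUnion]
    have h1 : x.natAbs ≤ K := by rw [hK]; exact Nat.le_floor hxK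
    refine ⟨x, ?_, ?_⟩
    · rw [mem_Icc]
      omega
    rw [mem_image]
    have h2 : ((y.natAbs : ℤ) + D) * ((y.natAbs : ℤ) - D) = x ^ 3 := by
      have h3 : ((y.natAbs : ℕ) : ℤ) ^ 2 = y ^ 2 := Int.natAbs_sq y
      linear_combination h3 + hxy
    refine ⟨y.natAbs + D, ?_, ?_⟩
    · rw [Nat.mem_divisors]
      constructor
      · have h3 : ((y.natAbs + D : ℕ) : ℤ) ∣ x ^ 3 :=
          ⟨(y.natAbs : ℤ) - D, by rw [← h2, Nat.cast_add]⟩
        have h4 := Int.natAbs_dvd_natAbs.2 h3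
        rw [Int.natAbs_natCast, Int.natAbs_pow] at h4
        exact h4
      · exact pow_ne_zero 3 (Int.natAbs_ne_zero.2 hx)
    · have h5 : ((y.natAbs + D : ℕ) : ℤ) ≠ 0 := by omega
      have h6 : x ^ 3 / ((y.natAbs + D : ℕ) : ℤ) = (y.natAbs : ℤ) - D := by
        apply Int.ediv_eq_of_eq_mul_right h5
        rw [← h2]
        push_cast
        ring
      rw [h6]
      push_cast
      have h7 : ((y.natAbs : ℤ) + D - ((y.natAbs : ℤ) - D)) / 2 = D := by omega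
      have h8 : (|y| + (D : ℤ) - (|y| - D)) / 2 = D := by omega
      first
        | rw [h7]; exact Int.toNat_natCast D
        | rw [h8]; exact Int.toNat_natCast D
  have h1 := (card_le_card hcov).trans card_biUnion_le
  have h2 : ∀ x ∈ Icc (-(K : ℤ)) K, ((((x.natAbs ^ 3).divisors.image fun d : ℕ =>
        (((d : ℤ) - x ^ 3 / (d : ℤ)) / 2).toNat).card : ℕ) : ℝ) ≤ C * (N : ℝ) ^ ((27 : ℝ) / 1000) := by
    intro x hx
    have h3 : ((((x.natAbs ^ 3).divisors.image fun d : ℕ =>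
        (((d : ℤ) - x ^ 3 / (d : ℤ)) / 2).toNat).card : ℕ) : ℝ) ≤
        ((x.natAbs ^ 3).divisors.card : ℝ) := by exact_mod_cast card_image_le
    refine h3.trans ?_
    rcases eq_or_ne x 0 with h0 | h0
    · rw [h0]
      simp only [Int.natAbs_zero, ne_eq, OfNat.ofNat_ne_zero, not_false_eq_true, zero_pow,
        Nat.divisors_zero, card_empty, Nat.cast_zero]
      positivity
    have h4 : 1 ≤ x.natAbs := Nat.one_le_iff_ne_zero.2 (Int.natAbs_ne_zero.2 h0)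
    refine (hdiv (x.natAbs ^ 3) (Nat.one_le_pow _ _ h4)).trans ?_
    refine mul_le_mul_of_nonneg_left ?_ (by linarith)
    have h5 : x.natAbs ≤ K := by
      rw [mem_Icc] at hx
      omega
    have h6 : (x.natAbs : ℝ) ≤ (N : ℝ) ^ ((9 : ℝ) / 10) := by
      refine le_trans ?_ hKle
      exact_mod_cast h5
    have h7 : ((x.natAbs ^ 3 : ℕ) : ℝ) ≤ (N : ℝ) ^ ((27 : ℝ) / 10) := by
      have := pow_le_pow_left₀ (Nat.cast_nonneg _) h6 3
      rw [← Real.rpow_natCast ((N : ℝ) ^ ((9 : ℝ) / 10)), ← Real.rpow_mul hN0.le] at this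
      push_cast at this ⊢
      norm_num at this ⊢
      exact this
    calc ((x.natAbs ^ 3 : ℕ) : ℝ) ^ ((1 : ℝ) / 100) ≤ ((N : ℝ) ^ ((27 : ℝ) / 10)) ^ ((1 : ℝ) / 100) :=
          Real.rpow_le_rpow (Nat.cast_nonneg _) h7 (by norm_num)
      _ = (N : ℝ) ^ ((27 : ℝ) / 1000) := by
          rw [← Real.rpow_mul hN0.le]
          norm_num
  have h3 : ((((Icc 1 N).filter fun D : ℕ => ∃ x y : ℤ, x ≠ 0 ∧ y ^ 2 = x ^ 3 + (D : ℤ) ^ 2 ∧
      (x.natAbs : ℝ) ≤ (N : ℝ) ^ ((9 : ℝ) / 10)).card : ℕ) : ℝ) ≤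
      ∑ x ∈ Icc (-(K : ℤ)) K, ((((x.natAbs ^ 3).divisors.image fun d : ℕ =>
        (((d : ℤ) - x ^ 3 / (d : ℤ)) / 2).toNat).card : ℕ) : ℝ) := by
    exact_mod_cast h1
  refine (h3.trans (sum_le_sum h2)).trans ?_
  rw [sum_const, nsmul_eq_mul, Int.card_Icc]
  have h4 : (((K : ℤ) + 1 - -(K : ℤ)).toNat : ℝ) ≤ 3 * (N : ℝ) ^ ((9 : ℝ) / 10) := by
    have e1 : ((K : ℤ) + 1 - -(K : ℤ)).toNat = 2 * K + 1 := by omega
    rw [e1]
    push_cast
    have e2 : (1 : ℝ) ≤ (N : ℝ) ^ ((9 : ℝ) / 10) := Real.one_le_rpow hN1 (by norm_num)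
    linarith
  calc (((K : ℤ) + 1 - -(K : ℤ)).toNat : ℝ) * (C * (N : ℝ) ^ ((27 : ℝ) / 1000))
      ≤ 3 * (N : ℝ) ^ ((9 : ℝ) / 10) * (C * (N : ℝ) ^ ((27 : ℝ) / 1000)) := by gcongr
    _ = 3 * C * ((N : ℝ) ^ ((9 : ℝ) / 10) * (N : ℝ) ^ ((27 : ℝ) / 1000)) := by ring
    _ = 3 * C * (N : ℝ) ^ ((927 : ℝ) / 1000) := by
        rw [← Real.rpow_add hN0]
        norm_num
    _ ≤ 3 * C * (N : ℝ) ^ ((199 : ℝ) / 200) := by
        refine mul_le_mul_of_nonneg_left (rpow_mono hN1 (by norm_num)) (by linarith)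

open Classical in
/-- multiples of large cubes -/
theorem card_cubes (N G : ℕ) (hG : 1 ≤ G) :
    ((((Icc 1 N).filter fun D => ∃ g : ℕ, G < g ∧ g ^ 3 ∣ 2 * D).card : ℕ) : ℝ) ≤
      2 * N / (G : ℝ) ^ 2 := by
  have hG0 : (0 : ℝ) < G := by exact_mod_cast hG
  have hcov : ((Icc 1 N).filter fun D => ∃ g : ℕ, G < g ∧ g ^ 3 ∣ 2 * D) ⊆
      (Ioc G (G + 2 * N)).biUnion fun g => (Icc 1 N).filter fun D => g ^ 3 ∣ 2 * D := by
    intro D hD
    rw [mem_filter, mem_Icc] at hD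
    obtain ⟨hD1, g, hg, hgD⟩ := hD
    rw [mem_biUnion]
    refine ⟨g, ?_, mem_filter.2 ⟨mem_Icc.2 hD1, hgD⟩⟩
    rw [mem_Ioc]
    refine ⟨hg, ?_⟩
    have h1 := Nat.le_of_dvd (by omega) hgD
    have h2 : g ≤ g ^ 3 := Nat.le_self_pow (by norm_num) g
    omega
  have h1 := (card_le_card hcov).trans card_biUnion_le
  have h2 : ∀ g ∈ Ioc G (G + 2 * N), ((((Icc 1 N).filter fun D => g ^ 3 ∣ 2 * D).card : ℕ) : ℝ) ≤
      2 * N / G * ((g : ℝ) ^ 2)⁻¹ := by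
    intro g hg
    rw [mem_Ioc] at hg
    have hg0 : 0 < g := by omega
    have hg0' : (0 : ℝ) < g := by exact_mod_cast hg0
    have h3 : ((Icc 1 N).filter fun D => g ^ 3 ∣ 2 * D).card ≤ (Icc 1 (2 * N / g ^ 3)).card := by
      refine card_le_card_of_injOn (fun D => 2 * D / g ^ 3) ?_ ?_
      · intro D hD
        have hD' := hD
        rw [mem_coe, mem_filter, mem_Icc] at hD'
        rw [mem_coe, mem_Icc]
        obtain ⟨k, hk⟩ := hD'.2
        constructor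
        · show 1 ≤ 2 * D / g ^ 3
          rw [hk, Nat.mul_div_cancel_left _ (pow_pos hg0 3)]
          rcases Nat.eq_zero_or_pos k with h0 | h0
          · rw [h0, mul_zero] at hk
            omega
          · exact h0
        · exact Nat.div_le_div_right (by omega)
      · intro D hD D' hD' h
        rw [mem_coe, mem_filter] at hD hD'
        obtain ⟨k, hk⟩ := hD.2
        obtain ⟨k', hk'⟩ := hD'.2
        have h : 2 * D / g ^ 3 = 2 * D' / g ^ 3 := h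
        rw [hk, hk', Nat.mul_div_cancel_left _ (pow_pos hg0 3),
          Nat.mul_div_cancel_left _ (pow_pos hg0 3)] at h
        rw [h] at hk
        omega
    rw [Nat.card_Icc, Nat.add_sub_cancel] at h3
    have h4 : ((((Icc 1 N).filter fun D => g ^ 3 ∣ 2 * D).card : ℕ) : ℝ) ≤
        ((2 * N / g ^ 3 : ℕ) : ℝ) := by exact_mod_cast h3
    refine h4.trans (Nat.cast_div_le.trans ?_)
    push_cast
    have h5 : (G : ℝ) ≤ g := by exact_mod_cast hg.1.le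
    rw [div_mul_eq_mul_div, ← div_eq_mul_inv, div_div, div_le_div_iff₀ (by positivity)
      (by positivity)]
    have h6 : (g : ℝ) ^ 2 * G ≤ (g : ℝ) ^ 3 := by
      have : (g : ℝ) ^ 3 = (g : ℝ) ^ 2 * g := by ring
      rw [this]
      gcongr
    exact mul_le_mul_of_nonneg_left h6 (by positivity)
  have h3 : ((((Icc 1 N).filter fun D => ∃ g : ℕ, G < g ∧ g ^ 3 ∣ 2 * D).card : ℕ) : ℝ) ≤
      ∑ g ∈ Ioc G (G + 2 * N), ((((Icc 1 N).filter fun D => g ^ 3 ∣ 2 * D).card : ℕ) : ℝ) := by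
    exact_mod_cast h1
  refine (h3.trans (sum_le_sum h2)).trans ?_
  rw [← mul_sum]
  have h4 : ∑ g ∈ Ioc G (G + 2 * N), ((g : ℝ) ^ 2)⁻¹ ≤ (G : ℝ)⁻¹ := by
    refine (sum_Ioc_inv_sq_le_sub (by omega) (by omega)).trans ?_
    have : (0 : ℝ) ≤ (((G + 2 * N : ℕ) : ℝ))⁻¹ := by positivity
    linarith
  calc 2 * N / G * ∑ g ∈ Ioc G (G + 2 * N), ((g : ℝ) ^ 2)⁻¹ ≤ 2 * N / G * (G : ℝ)⁻¹ := by gcongr
    _ = 2 * N / (G : ℝ) ^ 2 := by
        field_simp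

/-- the exceptional numbers -/
def Exc (N : ℕ) (D : ℕ) : Prop := ∃ x y : ℤ, x ≠ 0 ∧ y ^ 2 = x ^ 3 + (D : ℤ) ^ 2 ∧
  |(x : ℝ)| ≤ Real.exp ((N : ℝ) ^ ((1 : ℝ) / 10000))

open Classical in
/-- the cover of the exceptional numbers -/
theorem cover (N G B Y : ℕ) (X₁ : ℝ) (hN : 1 ≤ N) (hG : 1 ≤ G)
    (hX₁ : X₁ = (N : ℝ) ^ ((9 : ℝ) / 10) / (G : ℝ) ^ 2)
    (hB : B = ⌊Real.exp ((N : ℝ) ^ ((1 : ℝ) / 10000))⌋₊) :
    (((Icc 1 N).filter fun D => Exc N D).card : ℝ) ≤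
      ((((Icc 1 N).filter fun D : ℕ => ∃ x y : ℤ, x ≠ 0 ∧ y ^ 2 = x ^ 3 + (D : ℤ) ^ 2 ∧
      (x.natAbs : ℝ) ≤ (N : ℝ) ^ ((9 : ℝ) / 10)).card : ℕ) : ℝ) +
      ((((Icc 1 N).filter fun D => ∃ g : ℕ, G < g ∧ g ^ 3 ∣ 2 * D).card : ℕ) : ℝ) +
      G * (((((Icc 1 (2 * N)).filter fun e => ∃ r s u v : ℕ, Rep X₁ B e r s u v ∧
        r * s ≤ Y).card : ℕ) : ℝ) +
       ((((Icc 1 (2 * N)).filter fun e => ∃ r s u v : ℕ, Rep X₁ B e r s u v ∧
        Y < r * s).card : ℕ) : ℝ)) := by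
  have hN1 : (1 : ℝ) ≤ N := by exact_mod_cast hN
  have hG0 : (0 : ℝ) < G := by exact_mod_cast hG
  set A1 := (Icc 1 N).filter fun D : ℕ => ∃ x y : ℤ, x ≠ 0 ∧ y ^ 2 = x ^ 3 + (D : ℤ) ^ 2 ∧
      (x.natAbs : ℝ) ≤ (N : ℝ) ^ ((9 : ℝ) / 10) with hA1
  set A2 := (Icc 1 N).filter fun D => ∃ g : ℕ, G < g ∧ g ^ 3 ∣ 2 * D with hA2
  set A3 := (Icc 1 (2 * N)).filter fun e => ∃ r s u v : ℕ, Rep X₁ B e r s u v ∧ r * s ≤ Y with hA3
  set A4 := (Icc 1 (2 * N)).filter fun e => ∃ r s u v : ℕ, Rep X₁ B e r s u v ∧ Y < r * s with hA4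
  have hcov : ((Icc 1 N).filter fun D => Exc N D) ⊆
      (A1 ∪ A2) ∪ ((Icc 1 G) ×ˢ (A3 ∪ A4)).image fun w => w.1 ^ 3 * w.2 / 2 := by
    intro D hD
    rw [mem_filter, mem_Icc] at hD
    obtain ⟨⟨hD1, hDN⟩, x, y, hx, hxy, hxe⟩ := hD
    have hxabs : |(x : ℝ)| = (x.natAbs : ℝ) := by
      rw [Nat.cast_natAbs, Int.cast_abs]
    by_cases hsm : (x.natAbs : ℝ) ≤ (N : ℝ) ^ ((9 : ℝ) / 10)
    · rw [mem_union, mem_union]
      left; left
      rw [hA1, mem_filter, mem_Icc]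
      exact ⟨⟨hD1, hDN⟩, x, y, hx, hxy, hsm⟩
    push Not at hsm
    -- x is positive
    have hxpos : 0 < x := by
      by_contra hneg
      have hneg' : x < 0 := lt_of_le_of_ne (not_lt.1 hneg) hx
      have h1 : (x.natAbs : ℤ) = -x := by omega
      have h2 : (x.natAbs : ℤ) ^ 3 ≤ (D : ℤ) ^ 2 := by
        rw [h1]
        nlinarith [sq_nonneg y]
      have h3 : (x.natAbs : ℝ) ^ 3 ≤ (N : ℝ) ^ 2 := by
        have h4 : x.natAbs ^ 3 ≤ D ^ 2 := by exact_mod_cast h2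
        have h5 : x.natAbs ^ 3 ≤ N ^ 2 := h4.trans (Nat.pow_le_pow_left hDN 2)
        exact_mod_cast h5
      have h6 : ((N : ℝ) ^ ((9 : ℝ) / 10)) ^ 3 < (x.natAbs : ℝ) ^ 3 :=
        pow_lt_pow_left₀ hsm (by positivity) (by norm_num)
      have h7 : ((N : ℝ) ^ ((9 : ℝ) / 10)) ^ 3 = (N : ℝ) ^ ((27 : ℝ) / 10) := by
        rw [← Real.rpow_natCast, ← Real.rpow_mul (by linarith)]
        norm_num
      have h8 : (N : ℝ) ^ 2 ≤ (N : ℝ) ^ ((27 : ℝ) / 10) := by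
        rw [← Real.rpow_natCast]
        exact rpow_mono hN1 (by norm_num)
      linarith
    obtain ⟨r, s, u, v, g, hr, hs, hu, hv, hg, hcop, hlt, h2D, hxe'⟩ := data D x y hD1 hxpos hxy
    by_cases hgG : G < g
    · rw [mem_union, mem_union]
      left; right
      rw [hA2, mem_filter, mem_Icc]
      exact ⟨⟨hD1, hDN⟩, g, hgG, ⟨_, h2D⟩⟩
    push Not at hgG
    rw [mem_union]
    right
    rw [mem_image]
    obtain ⟨e, he⟩ : ∃ e, e = r * s * (s * v ^ 3 - r * u ^ 3) := ⟨_, rfl⟩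
    rw [← he] at h2D
    have he0 : 0 < e := by
      rcases Nat.eq_zero_or_pos e with h0 | h0
      · rw [h0, mul_zero] at h2D
        omega
      · exact h0
    have heN : e ≤ 2 * N := by
      calc e ≤ g ^ 3 * e := Nat.le_mul_of_pos_left e (pow_pos hg 3)
        _ = 2 * D := h2D.symm
        _ ≤ 2 * N := by omega
    have hxle : x.natAbs ≤ B := by
      rw [hB]
      apply Nat.le_floor
      rw [← hxabs]
      exact hxe
    have hrep : Rep X₁ B e r s u v := by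
      refine ⟨hr, hs, hu, hv, hcop, hlt, he, ?_, ?_, ?_⟩
      · rw [hX₁, div_le_iff₀ (by positivity)]
        have h1 : (x.natAbs : ℝ) = r * s * g ^ 2 * u * v := by exact_mod_cast hxe'
        have h2 : (g : ℝ) ^ 2 ≤ (G : ℝ) ^ 2 := by
          have : (g : ℝ) ≤ G := by exact_mod_cast hgG
          exact pow_le_pow_left₀ (Nat.cast_nonneg _) this 2
        calc (N : ℝ) ^ ((9 : ℝ) / 10) ≤ (x.natAbs : ℝ) := hsm.le
          _ = r * s * u * v * g ^ 2 := by rw [h1]; ring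
          _ ≤ r * s * u * v * G ^ 2 := by gcongr
      · refine le_trans ?_ hxle
        rw [hxe']
        calc u ≤ u * (r * s * g ^ 2 * v) := Nat.le_mul_of_pos_right u (by positivity)
          _ = r * s * g ^ 2 * u * v := by ring
      · refine le_trans ?_ hxle
        rw [hxe']
        exact Nat.le_mul_of_pos_left v (by positivity)
    refine ⟨(g, e), ?_, ?_⟩
    · rw [mem_product, mem_Icc, mem_union]
      refine ⟨⟨hg, hgG⟩, ?_⟩
      rcases le_or_gt (r * s) Y with h1 | h1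
      · left
        rw [hA3, mem_filter, mem_Icc]
        exact ⟨⟨he0, heN⟩, r, s, u, v, hrep, h1⟩
      · right
        rw [hA4, mem_filter, mem_Icc]
        exact ⟨⟨he0, heN⟩, r, s, u, v, hrep, h1⟩
    · show g ^ 3 * e / 2 = D
      rw [← h2D]
      omega
  have h1 := card_le_card hcov
  have h2 : (((A1 ∪ A2) ∪ ((Icc 1 G) ×ˢ (A3 ∪ A4)).image fun w => w.1 ^ 3 * w.2 / 2).card) ≤
      A1.card + A2.card + G * (A3.card + A4.card) := by
    refine (card_union_le _ _).trans (Nat.add_le_add (card_union_le _ _) ?_)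
    refine card_image_le.trans ?_
    rw [card_product, Nat.card_Icc, Nat.add_sub_cancel]
    exact Nat.mul_le_mul_left _ (card_union_le _ _)
  have h3 := h1.trans h2
  exact_mod_cast h3

end Pool.Agent.H49CT
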