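import Pool.Agent.W223.HZ.Stms

/-! Cubic twists with three-torsion: the function field part.  `n² (-a B³ + (d₁ + X) A³)` is not a
cube in `ℚ(X)` if `A ≠ 0`. -/

set_option autoImplicit false

namespace Pool.Agent.H49CT

open Polynomial Pool.Agent.W223.HZ

lemma natDegree_s (d : ℚ) : (X ^ 3 - C d : ℚ[X]).natDegree = 3 := natDegree_X_pow_sub_C

/-- two cubes with constant coefficients have the same degree -/
lemma deg_eq (u v : ℚ) (hu : u ≠ 0) (hv : v ≠ 0) (x y : ℚ[X])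
    (h : C u * x ^ 3 + C v * y ^ 3 = 0) : x.natDegree = y.natDegree := by
  have h1 : C u * x ^ 3 = C (-v) * y ^ 3 := by
    rw [C_neg]
    linear_combination h
  have h2 := congrArg natDegree h1
  rw [natDegree_C_mul hu, natDegree_C_mul (neg_ne_zero.2 hv), natDegree_pow, natDegree_pow] at h2
  omega

theorem nosol (u v w d : ℚ) (hu : u ≠ 0) (hv : v ≠ 0) (hw : w ≠ 0) (b α γ : ℚ[X])
    (h : C u * b ^ 3 + C v * (X + C d) * α ^ 3 + C w * γ ^ 3 = 0) : α = 0 := by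
  by_contra hα
  obtain ⟨s, hs⟩ : ∃ s : ℚ[X], s = X ^ 3 - C d := ⟨_, rfl⟩
  have hsd : s.natDegree = 3 := by rw [hs]; exact natDegree_s d
  have hcomp : ∀ f : ℚ[X], (f.comp s).natDegree = f.natDegree * 3 := fun f => by
    rw [natDegree_comp, hsd]
  have hne : ∀ f : ℚ[X], f ≠ 0 → f.comp s ≠ 0 := by
    intro f hf h0
    rcases comp_eq_zero_iff.1 h0 with h1 | h1
    · exact hf h1
    · have h2 := congrArg natDegree h1.2
      rw [hsd, natDegree_C] at h2
      omega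
  have h1 : C u * (b.comp s) ^ 3 + C v * (X * α.comp s) ^ 3 + C w * (γ.comp s) ^ 3 = 0 := by
    have h2 := congrArg (fun f : ℚ[X] => f.comp s) h
    simp only [add_comp, mul_comp, C_comp, X_comp, pow_comp, zero_comp] at h2
    rw [← h2, hs]
    ring
  obtain ⟨x, hx⟩ : ∃ x, x = b.comp s := ⟨_, rfl⟩
  obtain ⟨y, hy⟩ : ∃ y, y = X * α.comp s := ⟨_, rfl⟩
  obtain ⟨z, hz⟩ : ∃ z, z = γ.comp s := ⟨_, rfl⟩
  have hy0 : y ≠ 0 := by
    rw [hy]
    exact mul_ne_zero X_ne_zero (hne α hα)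
  have hyd : y.natDegree = α.natDegree * 3 + 1 := by
    rw [hy, natDegree_X_mul (hne α hα), hcomp]
  have hxd : x.natDegree = b.natDegree * 3 := by rw [hx, hcomp]
  have hzd : z.natDegree = γ.natDegree * 3 := by rw [hz, hcomp]
  rw [← hx, ← hy, ← hz] at h1
  by_cases hx0 : x = 0
  · rw [hx0] at h1
    have h2 := deg_eq v w hv hw y z (by linear_combination h1)
    omega
  by_cases hz0 : z = 0
  · rw [hz0] at h1
    have h2 := deg_eq u v hu hv x y (by linear_combination h1)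
    omega
  classical
  obtain ⟨g, hg⟩ : ∃ g, g = EuclideanDomain.gcd x y := ⟨_, rfl⟩
  have hg0 : g ≠ 0 := by
    rw [hg]
    intro h0
    exact hx0 (EuclideanDomain.gcd_eq_zero_iff.1 h0).1
  obtain ⟨x1, hx1⟩ : g ∣ x := by rw [hg]; exact EuclideanDomain.gcd_dvd_left x y
  obtain ⟨y1, hy1⟩ : g ∣ y := by rw [hg]; exact EuclideanDomain.gcd_dvd_right x y
  have hcop : IsCoprime x1 y1 := by
    obtain ⟨e, f, hef⟩ : ∃ e f, g = x * e + y * f :=
      ⟨_, _, by rw [hg]; exact EuclideanDomain.gcd_eq_gcd_ab x y⟩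
    refine ⟨e, f, ?_⟩
    apply mul_left_cancel₀ hg0
    rw [hx1, hy1] at hef
    linear_combination -hef
  have hgz : g ∣ z := by
    have h3 : g ^ 3 ∣ z ^ 3 := by
      refine ⟨C (-(w⁻¹)) * (C u * x1 ^ 3 + C v * y1 ^ 3), ?_⟩
      rw [hx1, hy1] at h1
      have h4 : C w⁻¹ * C w = (1 : ℚ[X]) := by
        rw [← C_mul, inv_mul_cancel₀ hw, C_1]
      rw [C_neg]
      linear_combination (C w⁻¹) * h1 - z ^ 3 * h4
    exact (IsIntegrallyClosed.pow_dvd_pow_iff (by norm_num)).1 h3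
  obtain ⟨z1, hz1⟩ := hgz
  have h5 : C u * x1 ^ 3 + C v * y1 ^ 3 + C w * z1 ^ 3 = 0 := by
    apply mul_left_cancel₀ (pow_ne_zero 3 hg0)
    rw [hx1, hy1, hz1] at h1
    linear_combination h1
  have hx10 : x1 ≠ 0 := by rintro rfl; apply hx0; rw [hx1, mul_zero]
  have hy10 : y1 ≠ 0 := by rintro rfl; apply hy0; rw [hy1, mul_zero]
  have hz10 : z1 ≠ 0 := by rintro rfl; apply hz0; rw [hz1, mul_zero]
  obtain ⟨k1, k2, -⟩ := Polynomial.flt_catalan (k := ℚ) (p := 3) (q := 3) (r := 3) (by norm_num)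
    (by norm_num) (by norm_num) (by norm_num) (by norm_num) (by norm_num) (by norm_num) hx10 hy10
    hz10 hcop hu hv hw h5
  have h6 : x.natDegree = g.natDegree := by
    rw [hx1, natDegree_mul hg0 hx10, k1, add_zero]
  have h7 : y.natDegree = g.natDegree := by
    rw [hy1, natDegree_mul hg0 hy10, k2, add_zero]
  omega

/-- The polynomial whose values have to be cubes. -/
noncomputable def GQ (a n d₁ : ℤ) (A B : ℤ[X]) : ℤ[X] := C (n ^ 2) * GP a 0 0 d₁ A B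

lemma GQ_eq (a n d₁ : ℤ) (A B : ℤ[X]) :
    GQ a n d₁ A B = C (-(n ^ 2 * a)) * B ^ 3 + C (n ^ 2) * (X + C d₁) * A ^ 3 := by
  unfold GQ GP
  simp only [C_neg, C_mul, C_0]
  ring

theorem ncu (a n d₁ : ℤ) (ha : a ≠ 0) (hn : n ≠ 0) (A B P₁ P₂ : ℤ[X]) (hA : A ≠ 0)
    (hP : P₁ ≠ 0 ∨ P₂ ≠ 0) : P₁ ^ 3 + P₂ ^ 3 * GQ a n d₁ A B ≠ 0 := by
  intro h
  by_cases hP2 : P₂ = 0
  · rw [hP2] at h
    have h1 : P₁ ^ 3 = 0 := by linear_combination h
    have h2 : P₁ = 0 := pow_eq_zero_iff (by norm_num : (3 : ℕ) ≠ 0) |>.1 h1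
    rcases hP with h3 | h3
    · exact h3 h2
    · exact h3 hP2
  rw [GQ_eq] at h
  have h3 := congrArg (Polynomial.map (Int.castRingHom ℚ)) h
  simp only [Polynomial.map_add, Polynomial.map_mul, Polynomial.map_pow, Polynomial.map_C,
    Polynomial.map_X, Polynomial.map_zero] at h3
  have hn' : ((n : ℚ)) ≠ 0 := by exact_mod_cast hn
  have ha' : ((a : ℚ)) ≠ 0 := by exact_mod_cast ha
  have h4 := nosol (-((n : ℚ) ^ 2 * a)) ((n : ℚ) ^ 2) 1 (d₁ : ℚ)
    (neg_ne_zero.2 (mul_ne_zero (pow_ne_zero 2 hn') ha')) (pow_ne_zero 2 hn') one_ne_zero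
    (P₂.map (Int.castRingHom ℚ) * B.map (Int.castRingHom ℚ))
    (P₂.map (Int.castRingHom ℚ) * A.map (Int.castRingHom ℚ))
    (P₁.map (Int.castRingHom ℚ)) (by
      rw [← h3]
      simp only [eq_intCast, Int.cast_neg, Int.cast_mul, Int.cast_pow, C_1]
      ring)
  rcases mul_eq_zero.1 h4 with h5 | h5
  · apply hP2
    exact (Polynomial.map_eq_zero_iff (RingHom.injective_int (Int.castRingHom ℚ))).1 h5
  · apply hA
    exact (Polynomial.map_eq_zero_iff (RingHom.injective_int (Int.castRingHom ℚ))).1 h5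

end Pool.Agent.H49CT
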