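import Pool.Agent.W223.HZ.Stms
import Pool.Agent.W131.HZ.VA2

/-! Cubic twists with three-torsion: the determinants vanish. -/

set_option autoImplicit false

namespace Pool.Agent.H49CT

open Polynomial Pool.Agent.W223.HZ Pool.Agent.W131.HZ.VA2

/-- a point of size `Q` on `a p³ + d q³ = n`, where `-d` is between `T` and `2 T` -/
structure Pt (T Q : ℝ) (a n d p q : ℤ) : Prop where
  hd1 : T ≤ -(d : ℝ)
  hd2 : -(d : ℝ) ≤ 2 * T
  hq1 : Q ≤ q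
  hq2 : (q : ℝ) ≤ 2 * Q
  hp : 0 < p
  hcop : IsCoprime p q
  heq : a * p ^ 3 + d * q ^ 3 = n

section facts

variable {T Q V t : ℝ} {a n : ℤ}

lemma y_eq (hT : 0 < T) (ht : 0 < t) (ht6 : t ^ 6 * a = T) {d p q : ℤ} (hq : (q : ℝ) ≠ 0)
    (h : a * p ^ 3 + d * q ^ 3 = n) :
    ((p : ℝ) / (t ^ 2 * q)) ^ 3 + (d : ℝ) / T = n / (T * q ^ 3) := by
  have h1 : (a : ℝ) * p ^ 3 + d * q ^ 3 = n := by exact_mod_cast h
  have h2 : ((p : ℝ) / (t ^ 2 * q)) ^ 3 = a * p ^ 3 / (T * q ^ 3) := by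
    rw [div_pow, mul_pow, ← pow_mul, div_eq_div_iff (by positivity) (by positivity), ← ht6]
    ring
  rw [h2, ← h1]
  field_simp

lemma e_bd (hT : 0 < T) (hQ : 0 < Q) (hV0 : 0 < V) (hV : V ^ 3 * |(n : ℝ)| = T * Q ^ 3) {q : ℤ}
    (hq : Q ≤ q) : |(n : ℝ) / (T * q ^ 3)| ≤ 1 / V ^ 3 := by
  have hq0 : (0 : ℝ) < q := by linarith
  rw [abs_div, abs_of_pos (by positivity : 0 < T * (q : ℝ) ^ 3), div_le_div_iff₀ (by positivity)
    (by positivity), one_mul, mul_comm, hV]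
  exact mul_le_mul_of_nonneg_left (pow_le_pow_left₀ hQ.le hq 3) hT.le

lemma y_bds (hT : 0 < T) (hQ : 0 < Q) (hV2 : 2 ≤ V) (hV : V ^ 3 * |(n : ℝ)| = T * Q ^ 3)
    (ht : 0 < t) (ht6 : t ^ 6 * a = T) {d p q : ℤ} (h : Pt T Q a n d p q) :
    1 / 2 ≤ (p : ℝ) / (t ^ 2 * q) ∧ (p : ℝ) / (t ^ 2 * q) ≤ 2 := by
  have hq0 : (0 : ℝ) < q := by linarith [h.hq1]
  have hp0 : (0 : ℝ) < p := by exact_mod_cast h.hp
  have h1 := y_eq hT ht ht6 hq0.ne' h.heq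
  have h2 := abs_le.1 (e_bd hT hQ (by linarith) hV h.hq1)
  have h3 : 1 / V ^ 3 ≤ 1 / 8 := by
    apply one_div_le_one_div_of_le (by norm_num)
    have := pow_le_pow_left₀ (by norm_num) hV2 3
    linarith
  have hy : 0 < (p : ℝ) / (t ^ 2 * q) := by positivity
  set y := (p : ℝ) / (t ^ 2 * q) with hyd
  have h4 : 1 ≤ -((d : ℝ) / T) := by
    rw [← neg_div, le_div_iff₀ hT]
    linarith [h.hd1]
  have h5 : -((d : ℝ) / T) ≤ 2 := by
    rw [← neg_div, div_le_iff₀ hT]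
    linarith [h.hd2]
  constructor
  · by_contra hc
    push Not at hc
    have : y ^ 3 < (1 / 2) ^ 3 := pow_lt_pow_left₀ hc hy.le (by norm_num)
    norm_num at this
    linarith [h2.1]
  · by_contra hc
    push Not at hc
    have : (2 : ℝ) ^ 3 < y ^ 3 := pow_lt_pow_left₀ hc (by norm_num) (by norm_num)
    norm_num at this
    linarith [h2.2]

lemma qt_le (hT : 0 < T) (hQ : 0 < Q) (hV0 : 0 < V) (hV : V ^ 3 * |(n : ℝ)| = T * Q ^ 3)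
    (hn : n ≠ 0) (hnT : (n : ℝ) ^ 2 ≤ T)
    (ht : 0 < t) (ha : 1 ≤ a) (ht6 : t ^ 6 * a = T) {q : ℤ} (hq1 : Q ≤ q) (hq2 : (q : ℝ) ≤ 2 * Q) :
    |(q : ℝ)| * t ≤ 200 * V := by
  have hq0 : (0 : ℝ) < q := by linarith
  rw [abs_of_pos hq0]
  have ha' : (1 : ℝ) ≤ a := by exact_mod_cast ha
  have hn0 : 0 < (n : ℝ) ^ 2 := by
    have : (n : ℝ) ≠ 0 := by exact_mod_cast hn
    positivity
  by_contra hc
  push Not at hc
  have h1 : (200 * V) ^ 6 < (q * t) ^ 6 := pow_lt_pow_left₀ hc (by positivity) (by norm_num)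
  have h2 : (q * t) ^ 6 ≤ (2 * Q) ^ 6 * T := by
    rw [mul_pow]
    have h3 : t ^ 6 ≤ T := by
      rw [← ht6]
      exact le_mul_of_one_le_right (by positivity) ha'
    exact mul_le_mul (pow_le_pow_left₀ hq0.le hq2 6) h3 (by positivity) (by positivity)
  have h4 : V ^ 6 * (n : ℝ) ^ 2 = T ^ 2 * Q ^ 6 := by
    have := congrArg (fun x => x ^ 2) hV
    simp only [mul_pow, sq_abs] at this
    linear_combination this
  have h5 : T * Q ^ 6 ≤ V ^ 6 := by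
    have h6 : T * Q ^ 6 * T ≤ V ^ 6 * T := by
      calc T * Q ^ 6 * T = V ^ 6 * (n : ℝ) ^ 2 := by rw [h4]; ring
        _ ≤ V ^ 6 * T := mul_le_mul_of_nonneg_left hnT (by positivity)
    exact le_of_mul_le_mul_right h6 hT
  have h7 : (200 * V) ^ 6 = 64000000000000 * V ^ 6 := by ring
  have h8 : (2 * Q) ^ 6 * T = 64 * (T * Q ^ 6) := by ring
  have h9 : 0 < V ^ 6 := by positivity
  rw [h7] at h1
  rw [h8] at h2
  linarith

end facts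

theorem va (hC : StmtC2R) (hB : StmtDPB) (hP : StmtPAR) : ∃ c₀ S₀ : ℝ, 0 < c₀ ∧ 1 ≤ S₀ ∧
    ∀ (T Q V σ t : ℝ) (m : ℕ) (a n : ℤ) (d₀ p₀ q₀ : ℤ) (P R D : Fin m ⊕ Fin m → ℤ), 1 ≤ a →
    n ≠ 0 → (n : ℝ) ^ 2 ≤ T → S₀ ≤ T → 1 / 2 ≤ σ → V = T ^ σ → V ^ 3 * |(n : ℝ)| = T * Q ^ 3 →
    1 ≤ Q → 0 < t → t ^ 6 * a = T → m = ⌈5 * σ⌉₊ → (∀ i, Pt T Q a n (D i) (P i) (R i)) →
    Pt T Q a n d₀ p₀ q₀ →
    (∀ i j, |(P i : ℝ) / (t ^ 2 * R i) - P j / (t ^ 2 * R j)| ≤ c₀) →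
    (∀ i, |(P i : ℝ) / (t ^ 2 * R i) - p₀ / (t ^ 2 * q₀)| ≤ c₀) →
    (∀ i, |(D i : ℝ) - d₀| ≤ T ^ ((1 : ℝ) / 11)) →
    (Mat m P R (fun i => D i - d₀)).det = 0 := by
  obtain ⟨c₀, C₄, hc₀, hC₄, hC'⟩ := hC 8 (by norm_num)
  obtain ⟨C₅, hC₅, hB'⟩ := hB C₄ hC₄
  obtain ⟨S₁, hS₁, hP'⟩ := hP (C₅ * 200 ^ 2) (by linarith)
  refine ⟨c₀, max S₁ (max (C₄ ^ 2) 4), hc₀, le_max_of_le_left hS₁, ?_⟩
  intro T Q V σ t m a n d₀ p₀ q₀ P R D ha hn hnT hS hσ hV hV3 hQ ht ht6 hm hG hG0 hcell hcell0 hd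
  have hS1 : S₁ ≤ T := (le_max_left _ _).trans hS
  have hS2 : C₄ ^ 2 ≤ T := ((le_max_left _ _).trans (le_max_right _ _)).trans hS
  have hS4 : 4 ≤ T := ((le_max_right _ _).trans (le_max_right _ _)).trans hS
  obtain ⟨Y, hY1, hY2⟩ := hP' T σ m hS1 hσ hm
  have hT1 : 1 ≤ T := by linarith
  have hT0 : 0 < T := by linarith
  have hQ0 : 0 < Q := by linarith
  set L : ℝ := T ^ ((1 : ℝ) / 11) with hLdef
  have hL0 : 0 < L := Real.rpow_pos_of_pos hT0 _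
  have hm1 : 1 ≤ m := by
    rw [hm]
    exact Nat.one_le_ceil_iff.2 (by linarith)
  -- sizes
  have hhalf : C₄ ≤ T ^ ((1 : ℝ) / 2) := by
    rw [← Real.sqrt_eq_rpow]
    exact Real.le_sqrt_of_sq_le hS2
  have hhalf2 : 2 ≤ T ^ ((1 : ℝ) / 2) := by
    rw [← Real.sqrt_eq_rpow]
    exact Real.le_sqrt_of_sq_le (by linarith)
  have hV1 : T ^ ((1 : ℝ) / 2) ≤ V := by
    rw [hV]
    exact Real.rpow_le_rpow_of_exponent_le hT1 hσ
  have hVK : C₄ ≤ V := hhalf.trans hV1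
  have hV2 : 2 ≤ V := hhalf2.trans hV1
  have hV1' : 1 ≤ V := by linarith
  have hV0 : 0 < V := by linarith
  have hLS : C₄ * L ≤ T := by
    calc C₄ * L ≤ T ^ ((1 : ℝ) / 2) * T ^ ((1 : ℝ) / 11) :=
          mul_le_mul_of_nonneg_right hhalf hL0.le
      _ = T ^ ((1 : ℝ) / 2 + (1 : ℝ) / 11) := (Real.rpow_add hT0 _ _).symm
      _ ≤ T ^ (1 : ℝ) := Real.rpow_le_rpow_of_exponent_le hT1 (by norm_num)
      _ = T := Real.rpow_one T
  have hV3' : V ≤ V ^ 3 := le_self_pow₀ hV1' (by norm_num)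
  have he1 : C₄ * (1 / V ^ 3) ≤ 1 := by
    rw [← mul_div_assoc, mul_one, div_le_one (by positivity)]
    exact hVK.trans hV3'
  -- facts on the points
  have fact : ∀ d p q : ℤ, Pt T Q a n d p q → (q : ℝ) ≠ 0 := by
    intro d p q h
    have := h.hq1
    linarith
  have fy : ∀ d p q : ℤ, Pt T Q a n d p q → |(p : ℝ) / (t ^ 2 * q)| ≤ 8 := by
    intro d p q h
    have h1 := y_bds hT0 hQ0 hV2 hV3 ht ht6 h
    rw [abs_le]
    constructor <;> linarith [h1.1, h1.2]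
  have fe : ∀ d p q : ℤ, Pt T Q a n d p q →
      |(1 : ℝ) * ((p : ℝ) / (t ^ 2 * q)) ^ 3 + 3 * 0 * (p / (t ^ 2 * q)) ^ 2 +
      3 * 0 * (p / (t ^ 2 * q)) + d / T| ≤ 1 / V ^ 3 := by
    intro d p q h
    have h1 := y_eq hT0 ht ht6 (fact d p q h) h.heq
    have h2 : (1 : ℝ) * ((p : ℝ) / (t ^ 2 * q)) ^ 3 + 3 * 0 * (p / (t ^ 2 * q)) ^ 2 +
      3 * 0 * (p / (t ^ 2 * q)) + d / T = n / (T * q ^ 3) := by
      rw [← h1]
      ring
    rw [h2]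
    exact e_bd hT0 hQ0 hV0 hV3 h.hq1
  have fl : ∀ d p q : ℤ, Pt T Q a n d p q →
      1 ≤ 8 * |(1 : ℝ) * ((p : ℝ) / (t ^ 2 * q)) ^ 2 + 2 * 0 * (p / (t ^ 2 * q)) + 0| := by
    intro d p q h
    have h1 := (y_bds hT0 hQ0 hV2 hV3 ht ht6 h).1
    have h2 : (1 : ℝ) * ((p : ℝ) / (t ^ 2 * q)) ^ 2 + 2 * 0 * (p / (t ^ 2 * q)) + 0 =
      ((p : ℝ) / (t ^ 2 * q)) ^ 2 := by ring
    rw [h2, abs_of_nonneg (sq_nonneg _)]
    nlinarith
  have fd : ∀ d p q : ℤ, Pt T Q a n d p q → |(d : ℝ) / T| ≤ 8 := by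
    intro d p q h
    rw [abs_div, abs_of_pos hT0, div_le_iff₀ hT0, abs_le]
    constructor <;> linarith [h.hd1, h.hd2]
  -- the family with the base point
  have hpar : Param C₄ T L (1 / V ^ 3)
      (fun o : Option (Fin m ⊕ Fin m) => o.elim 0 (fun i => D i - d₀))
      (fun o : Option (Fin m ⊕ Fin m) => o.elim ((p₀ : ℝ) / (t ^ 2 * q₀))
        (fun i => (P i : ℝ) / (t ^ 2 * R i))) := by
    apply hC' T L (1 / V ^ 3) 1 0 0
      (Option (Fin m ⊕ Fin m)) _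
      (fun o : Option (Fin m ⊕ Fin m) => o.elim ((d₀ : ℝ) / T) (fun i => (D i : ℝ) / T)) _ none
      hT0 hL0.le hLS (by positivity) he1 (by norm_num) (by norm_num) (by norm_num)
    · rintro (_ | i)
      · exact fd d₀ p₀ q₀ hG0
      · exact fd (D i) (P i) (R i) (hG i)
    · rintro (_ | i)
      · exact fy d₀ p₀ q₀ hG0
      · exact fy (D i) (P i) (R i) (hG i)
    · rintro (_ | i)
      · exact fe d₀ p₀ q₀ hG0
      · exact fe (D i) (P i) (R i) (hG i)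
    · rintro (_ | i)
      · exact fl d₀ p₀ q₀ hG0
      · exact fl (D i) (P i) (R i) (hG i)
    · rintro (_ | i) (_ | j)
      · show |(p₀ : ℝ) / (t ^ 2 * q₀) - (p₀ : ℝ) / (t ^ 2 * q₀)| ≤ c₀
        rw [sub_self, abs_zero]
        exact hc₀.le
      · show |(p₀ : ℝ) / (t ^ 2 * q₀) - (P j : ℝ) / (t ^ 2 * R j)| ≤ c₀
        rw [abs_sub_comm]
        exact hcell0 j
      · exact hcell0 i
      · exact hcell i j
    · rintro (_ | i)
      · show ((0 : ℤ) : ℝ) = T * ((d₀ : ℝ) / T - (d₀ : ℝ) / T)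
        rw [sub_self, mul_zero, Int.cast_zero]
      · show ((D i - d₀ : ℤ) : ℝ) = T * ((D i : ℝ) / T - (d₀ : ℝ) / T)
        push_cast
        field_simp
    · rintro (_ | i)
      · show |((0 : ℤ) : ℝ)| ≤ L
        rw [Int.cast_zero, abs_zero]
        exact hL0.le
      · show |((D i - d₀ : ℤ) : ℝ)| ≤ L
        push_cast
        exact hd i
  have hpar2 : Param C₄ T L (1 / V ^ 3) (fun i : Fin m ⊕ Fin m => D i - d₀)
      (fun i : Fin m ⊕ Fin m => (P i : ℝ) / (t ^ 2 * R i)) :=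
    param_comp (fun i => some i) hpar
  have hY2' : ∀ u : ℤ, |u| ≤ m →
      V ^ (3 * u - m) * L ^ (m * (m - 1)) * (L / T) ^ (u.natAbs ^ 2) ≤ Y := by
    intro u hu
    rw [hV]
    exact hY2 u hu
  have hdet := hB' m T L V hm1 hT0 hL0 hLS hV1' _ _ hpar2 Y hY2'
  have hY0 : 0 ≤ Y := by
    have h1 := hY2' 0 (by rw [abs_zero]; positivity)
    refine le_trans ?_ h1
    positivity
  have hmain := det_eq (V := V) P R (fun i => D i - d₀) (fun i => (P i : ℝ) / (t ^ 2 * R i)) ht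
    (by
      intro i
      have h1 := fact (D i) (P i) (R i) (hG i)
      field_simp)
    (fun i => qt_le hT0 hQ0 hV0 hV3 hn hnT ht ha ht6 (hG i).hq1 (hG i).hq2)
  set Dt : ℝ := |Matrix.det (Matrix.of fun i : Fin m ⊕ Fin m =>
    Sum.elim (fun j : Fin m => ((D i - d₀ : ℤ) : ℝ) ^ (j : ℕ))
      (fun j : Fin m => (P i : ℝ) / (t ^ 2 * R i) * ((D i - d₀ : ℤ) : ℝ) ^ (j : ℕ)))| with hDt
  have hlt : |((Mat m P R (fun i => D i - d₀)).det : ℝ)| < 1 := by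
    have h1 : (200 * V) ^ (2 * m) * Dt ≤ (200 ^ 2) ^ (m ^ 2) * (C₅ ^ (m ^ 2) * Y) := by
      have e1 : (200 * V) ^ (2 * m) * Dt = (200 ^ 2) ^ m * (V ^ (2 * m) * Dt) := by
        rw [mul_pow, pow_mul 200 2 m]
        ring
      rw [e1]
      have e2 : ((200 : ℝ) ^ 2) ^ m ≤ (200 ^ 2) ^ (m ^ 2) :=
        pow_le_pow_right₀ (by norm_num) (by nlinarith)
      exact mul_le_mul e2 hdet (by positivity) (by positivity)
    have h2 : ((200 : ℝ) ^ 2) ^ (m ^ 2) * (C₅ ^ (m ^ 2) * Y) = (C₅ * 200 ^ 2) ^ (m ^ 2) * Y := by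
      rw [mul_pow C₅]
      ring
    rw [h2] at h1
    exact (hmain.trans h1).trans_lt hY1
  have hlt' : |(Mat m P R (fun i => D i - d₀)).det| < 1 := by exact_mod_cast hlt
  exact Int.abs_lt_one_iff.1 hlt'

end Pool.Agent.H49CT
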